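import Pool.Agent.Helper19.LB.Defs

/-!
# The fields of the example (second version, better constants)

The number `m` is the fourth root of `k`.
-/

open Set Real

namespace Pool.Agent.Helper19.LB2

open Pool.Agent.Helper19.LB

noncomputable section

/-- The outer radius of the window. -/
def rb (m : ℝ) : ℝ := 1 + 1 / m ^ 2

/-- What is left of the window field at the end of the fan. -/
def eta (k : ℕ) : ℝ := (1 / 2) ^ (k - 1)

/-- The decaying factor. -/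
def vv (k : ℕ) (m ρ : ℝ) : ℝ := (rb m / ρ) ^ (k - 1)

/-- The height of the fan at its end. -/
def yc (m : ℝ) : ℝ := 2 / m ^ 3 + 3 / 2 * rb m ^ 2 / m ^ 2

/-- The window field. -/
def W1 (k : ℕ) (m : ℝ) : Fld :=
  Fld.prod k (m ^ 6 / 2) (fun ρ => (1 - eta k) * (2 * m ^ 2 * (ρ - 1) - m ^ 4 * (ρ - 1) ^ 2))
    (fun ρ => (1 - eta k) * (2 * m ^ 2 - 2 * m ^ 4 * (ρ - 1))) (fun _ => -((1 - eta k) * (2 * m ^ 4)))
    (fun ρ => m ^ 4 / 100 + 21 / 10 * m ^ 6 * (ρ - 1)) (fun _ => 21 / 10 * m ^ 6)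

/-- The decaying field. -/
def W2 (k : ℕ) (m : ℝ) : Fld :=
  Fld.prod k (m ^ 6 / 2) (fun ρ => vv k m ρ - eta k) (fun ρ => -(k - 1) * vv k m ρ / ρ)
    (fun ρ => k * (k - 1) * vv k m ρ / ρ ^ 2) (fun ρ => 6 / 5 * m ^ 3 * (2 - vv k m ρ))
    (fun ρ => 6 / 5 * m ^ 3 * ((k - 1) * vv k m ρ / ρ))

/-- The fan. -/
def Fa (k : ℕ) (m : ℝ) : Fld :=
  Fld.fan k (rb m) (234 / 25 / m) (2 / m ^ 3) (156 / 25 * m) (7 / m)

/-- The closing field. -/
def W3 (k : ℕ) (m : ℝ) : Fld :=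
  Fld.prod k (1 / yc m ^ 2) (fun ρ => 936 / m * (201 / 100 * rb m - ρ)) (fun _ => -(936 / m))
    (fun _ => 0) (fun ρ => m ^ 3 / 2 + 559 * m ^ 3 * (ρ - 2 * rb m)) (fun _ => 559 * m ^ 3)

/-- What the fan leaves behind. -/
def V3 (k : ℕ) (m : ℝ) : Fld :=
  Fld.prod k (2 / yc m ^ 2) (fun _ => 0) (fun _ => 0) (fun _ => 0)
    (fun _ => 156 / 25 * m * (1 / yc m + 7 / m)) (fun _ => 0)

/-- What `W2` leaves behind. -/
def U3 (k : ℕ) (m : ℝ) : Fld :=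
  Fld.prod k (m ^ 6 / 2) (fun _ => 0) (fun _ => 0) (fun _ => 0)
    (fun _ => 6 / 5 * m ^ 3 * (2 - eta k)) (fun _ => 0)

/-- The fields of the five zones, before scaling. -/
def Zf (k : ℕ) (m : ℝ) : ℕ → Fld
  | 0 => Fld.flat (m ^ 3)
  | 1 => (Fld.flat (m ^ 3)).add (W1 k m)
  | 2 => (Fld.flat (m ^ 3)).add ((W2 k m).add (Fa k m))
  | 3 => (Fld.flat (m ^ 3)).add ((W3 k m).add ((V3 k m).add (U3 k m)))
  | _ => Fld.flat (27 * m ^ 3)

/-- The radii, before scaling. -/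
def bb (m : ℝ) : ℕ → ℝ
  | 0 => 0
  | 1 => 1
  | 2 => rb m
  | 3 => 2 * rb m
  | _ => 201 / 100 * rb m

end

end Pool.Agent.Helper19.LB2
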