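import Pool.Agent.Helper33.LB.Zone
import Pool.Agent.Helper27.LB.Sheets

/-!
# Assembly of the zones
-/

open MeasureTheory Set Real
open scoped ContDiff

namespace Pool.Agent.Helper19.LB

theorem measurableSet_arc (α β : ℝ) : MeasurableSet (arc α β) := by
  have h : arc α β = Ioo 0 π ∩ sin ⁻¹' (Ioo α β) := by
    ext s
    simp only [arc, mem_ofPred_eq, mem_inter_iff, mem_Ioo, mem_preimage]
    tauto
  rw [h]
  exact measurableSet_Ioo.inter (measurableSet_Ioo.preimage measurable_sin)

theorem sin_eq_null (c : ℝ) : volume ({s : ℝ | 0 < s ∧ s < π ∧ sin s = c}) = 0 := by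
  have h : {s : ℝ | 0 < s ∧ s < π ∧ sin s = c} ⊆ {arcsin c, π - arcsin c} := by
    rintro s ⟨h0, h1, rfl⟩
    rcases le_or_gt s (π / 2) with h2 | h2
    · left
      rw [arcsin_sin (by linarith) h2]
    · right
      rw [mem_singleton_iff]
      have h3 : sin s = sin (π - s) := (sin_pi_sub s).symm
      rw [h3, arcsin_sin (by linarith) (by linarith)]
      ring
  refine measure_mono_null h ?_
  exact (Set.toFinite _).measure_zero _

/-- Continuous fields are integrable on an arc. -/
theorem integrableOn_arc {α β : ℝ} {G : Pt → ℝ} (hG : ContinuousOn G (Icc α β ×ˢ univ)) :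
    IntegrableOn (fun s => G (sin s, 1 - cos s)) (arc α β) := by
  have hc : IsCompact (Icc 0 π ∩ sin ⁻¹' (Icc α β)) :=
    isCompact_Icc.inter_right (isClosed_Icc.preimage continuous_sin)
  have h1 : ContinuousOn (fun s => G (sin s, 1 - cos s)) (Icc 0 π ∩ sin ⁻¹' (Icc α β)) := by
    refine hG.comp (Continuous.continuousOn (by fun_prop)) ?_
    rintro s ⟨_, hs⟩
    exact ⟨hs, mem_univ _⟩
  refine (h1.integrableOn_compact hc).mono_set ?_
  rintro s ⟨h0, h2, h3, h4⟩
  exact ⟨⟨h0.le, h2.le⟩, ⟨h3.le, h4.le⟩⟩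

theorem integral_arc_add {a b c : ℝ} (hab : a ≤ b) (hbc : b ≤ c) {g : ℝ → ℝ}
    (hg : IntegrableOn g (Ioo 0 π)) :
    ∫ s in arc a c, g s = (∫ s in arc a b, g s) + ∫ s in arc b c, g s := by
  have hsub : ∀ x y : ℝ, arc x y ⊆ Ioo 0 π := fun x y s hs => ⟨hs.1, hs.2.1⟩
  rw [← setIntegral_union (μ := volume) (s := arc a b) (t := arc b c)]
  · refine setIntegral_congr_set ?_
    rw [ae_eq_set]
    constructor
    · refine measure_mono_null ?_ (sin_eq_null b)
      rintro s ⟨⟨h0, h1, h2, h3⟩, h4⟩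
      refine ⟨h0, h1, ?_⟩
      by_contra hne
      apply h4
      rcases lt_or_gt_of_ne hne with h | h
      · exact Or.inl ⟨h0, h1, h2, h⟩
      · exact Or.inr ⟨h0, h1, h, h3⟩
    · have : (arc a b ∪ arc b c) \ arc a c = ∅ := by
        rw [sdiff_eq_empty]
        rintro s (⟨h0, h1, h2, h3⟩ | ⟨h0, h1, h2, h3⟩)
        · exact ⟨h0, h1, h2, by linarith⟩
        · exact ⟨h0, h1, by linarith, h3⟩
      rw [this]
      exact measure_empty
  · rw [Set.disjoint_left]
    rintro s ⟨_, _, _, h3⟩ ⟨_, _, h2, _⟩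
    linarith
  · exact measurableSet_arc b c
  · exact hg.mono_set (hsub a b)
  · exact hg.mono_set (hsub b c)

theorem integral_arc_sum {r : ℕ → ℝ} (N : ℕ) (hr : ∀ i < N, r i < r (i + 1)) {g : ℝ → ℝ}
    (hg : IntegrableOn g (Ioo 0 π)) :
    ∫ s in arc (r 0) (r N), g s = ∑ i ∈ Finset.range N, ∫ s in arc (r i) (r (i + 1)), g s := by
  have hle : ∀ n ≤ N, r 0 ≤ r n := by
    intro n
    induction n with
    | zero => intro _; exact le_rfl
    | succ n ih => intro hn; exact (ih (by omega)).trans (hr n (by omega)).le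
  have key : ∀ n ≤ N, ∫ s in arc (r 0) (r n), g s =
      ∑ i ∈ Finset.range n, ∫ s in arc (r i) (r (i + 1)), g s := by
    intro n
    induction n with
    | zero =>
      intro _
      have : arc (r 0) (r 0) = ∅ := by
        ext s; simp only [arc, mem_ofPred_eq, mem_empty_iff_false, iff_false]
        rintro ⟨_, _, h1, h2⟩; linarith
      rw [this]; simp
    | succ n ih =>
      intro hn
      rw [Finset.sum_range_succ, ← ih (by omega)]
      exact integral_arc_add (hle n (by omega)) (hr n (by omega)).le hg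
  exact key N le_rfl

theorem integral_arc_univ {g : ℝ → ℝ} : ∫ s in arc 0 1, g s = ∫ s in Ioo 0 π, g s := by
  refine setIntegral_congr_set ?_
  rw [ae_eq_set]
  constructor
  · have : arc 0 1 \ Ioo 0 π = ∅ := by
      rw [sdiff_eq_empty]
      rintro s ⟨h0, h1, _, _⟩
      exact ⟨h0, h1⟩
    rw [this]; exact measure_empty
  · refine measure_mono_null ?_ (sin_eq_null 1)
    rintro s ⟨⟨h0, h1⟩, h2⟩
    refine ⟨h0, h1, ?_⟩
    by_contra hne
    exact h2 ⟨h0, h1, sin_pos_of_pos_of_lt_pi h0 h1, lt_of_le_of_ne (sin_le_one s) hne⟩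

theorem Rep.sum {k : ℕ} (N : ℕ) {r : ℕ → (Pt → ℝ) → (Pt → ℝ) → ℝ} (h : ∀ i < N, Rep k (r i)) :
    Rep k (fun A B => ∑ i ∈ Finset.range N, r i A B) := by
  induction N with
  | zero => simpa using rep_zero k
  | succ n ih =>
    have h1 := (ih fun i hi => h i (by omega)).add (h n (by omega))
    simpa only [Finset.sum_range_succ] using h1

/-- The sheet in the sphere. -/
theorem rep_sheet {k : ℕ} (hk : 3 ≤ k) {K R : ℝ} (hK : 0 < K) (hR : 0 < R) {T : ℝ → ℝ}
    (hT : AEStronglyMeasurable T (volume.restrict (Ioo 0 π)))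
    (hTb : ∀ s ∈ Ioo 0 π, |T s| ≤ 4 * K * R ^ 2 / (sin s + R) ^ 2) :
    Rep k (fun A B => ∫ s in Ioo 0 π,
      ((4 * K * R ^ 2 / (sin s + R) ^ 2 * sin s ^ k +
          k * (4 * K * R * sin s / (sin s + R)) * sin s ^ (k - 1)) *
          (sin s * A (sin s, cos s) + cos s * B (sin s, cos s)) -
        sin s ^ (k - 1) * T s * A (sin s, cos s))) := by
  refine rep_sphere hk (Q := fun ρ => 4 * K * R * ρ / (ρ + R))
    (Q' := fun ρ => 4 * K * R ^ 2 / (ρ + R) ^ 2) ?_ ?_ ?_ ?_ hT hTb
  · refine ContinuousOn.div (by fun_prop) (by fun_prop) ?_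
    intro ρ hρ
    have : (0 : ℝ) ≤ ρ := hρ
    positivity
  · refine ContinuousOn.div (by fun_prop) (by fun_prop) ?_
    intro ρ hρ
    have : (0 : ℝ) ≤ ρ := hρ
    positivity
  · intro ρ hρ
    positivity
  · intro ρ hρ
    have h1 : HasDerivAt (fun ρ : ℝ => 4 * K * R * ρ) (4 * K * R) ρ := by
      simpa using (hasDerivAt_id ρ).const_mul (4 * K * R)
    have h2 : HasDerivAt (fun ρ : ℝ => ρ + R) 1 ρ := (hasDerivAt_id ρ).add_const R
    have h3 : ρ + R ≠ 0 := by positivity
    refine (h1.div h2 h3).congr_deriv ?_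
    field_simp
    ring

/-- The fields of a zone on the arc. -/
theorem arc_identity {k : ℕ} (hk : 3 ≤ k) (K R : ℝ) (f : Fld) (A B : Pt → ℝ) {s : ℝ}
    (hc : cos s ≠ 0) :
    (sin s * Uf k f A B (sin s, cos s) + cos s * Vf k f A B (sin s, cos s)) +
      ((4 * K * R ^ 2 / (sin s + R) ^ 2 * sin s ^ k +
          k * (4 * K * R * sin s / (sin s + R)) * sin s ^ (k - 1)) *
          (sin s * A (sin s, cos s) + cos s * B (sin s, cos s)) -
        sin s ^ (k - 1) * (f.P (sin s) (1 - cos s) * sin s -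
          f.w (sin s) (1 - cos s) * (cos s ^ 2 - sin s ^ 2) / cos s) * A (sin s, cos s)) =
      dens k K R f s * (sin s * A (sin s, cos s) + cos s * B (sin s, cos s)) := by
  obtain ⟨j, rfl⟩ : ∃ j, k = j + 2 := ⟨k - 2, by omega⟩
  unfold Uf Vf dens
  simp only [Nat.add_sub_cancel, show j + 2 - 1 = j + 1 from rfl]
  generalize f.P (sin s) (1 - cos s) = p
  generalize f.w (sin s) (1 - cos s) = w
  generalize f.c (sin s) (1 - cos s) = c
  generalize 4 * K * R ^ 2 / (sin s + R) ^ 2 = a
  generalize 4 * K * R * sin s / (sin s + R) = b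
  generalize A (sin s, cos s) = A'
  generalize B (sin s, cos s) = B'
  field_simp
  ring

theorem cont_vert {α β : ℝ} {G : Pt → ℝ} (hG : ContinuousOn G (Icc α β ×ˢ univ)) {ρ : ℝ}
    (hρ : ρ ∈ Icc α β) : Continuous (fun z => G (ρ, 1 - z)) := by
  rw [← continuousOn_univ]
  refine hG.comp (Continuous.continuousOn (by fun_prop)) ?_
  intro z _
  exact ⟨hρ, mem_univ _⟩

theorem cont_Uf {k : ℕ} {α β : ℝ} {f : Fld} (hf : IsFld k α β f) {A B : Pt → ℝ}
    (hA : Continuous A) (hB : Continuous B) {ρ : ℝ} (hρ : ρ ∈ Icc α β) :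
    Continuous (fun z => Uf k f A B (ρ, z)) := by
  unfold Uf
  have h1 : Continuous (fun z => f.c ρ (1 - z)) := cont_vert hf.cont_c hρ
  have h2 : Continuous (fun z => f.P ρ (1 - z)) := cont_vert hf.cont_P hρ
  have h3 : Continuous (fun z => f.w ρ (1 - z)) := cont_vert hf.cont_w hρ
  have h4 : Continuous (fun z => A (ρ, z)) := hA.comp (by fun_prop)
  have h5 : Continuous (fun z => B (ρ, z)) := hB.comp (by fun_prop)
  have h6 : Continuous (fun z => (f.c ρ (1 - z) * ρ ^ (k - 2) + f.P ρ (1 - z) * ρ ^ (k - 1)) *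
      A (ρ, z)) := ((h1.mul_const (ρ ^ (k - 2))).add (h2.mul_const (ρ ^ (k - 1)))).mul h4
  have h7 : Continuous (fun z => f.w ρ (1 - z) * ρ ^ (k - 1) * B (ρ, z)) :=
    (h3.mul_const (ρ ^ (k - 1))).mul h5
  exact h6.sub h7

theorem zz_one : zz 1 = 0 := by unfold zz; norm_num

/-- The flux through the cylinders cancels. -/
theorem telescope (N : ℕ) (a b c : ℕ → ℝ) (ha : a N = 0) (hb : b 0 = 0)
    (h : ∀ i < N, a i - b (i + 1) + c i = 0) :
    ∑ i ∈ Finset.range (N + 1), (a i - b i) + ∑ i ∈ Finset.range N, c i = 0 := by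
  have h1 : ∑ i ∈ Finset.range (N + 1), (a i - b i) =
      ∑ i ∈ Finset.range N, a i - ∑ i ∈ Finset.range N, b (i + 1) := by
    rw [Finset.sum_sub_distrib, Finset.sum_range_succ, Finset.sum_range_succ' b, ha, hb]
    ring
  rw [h1, ← Finset.sum_sub_distrib, ← Finset.sum_add_distrib]
  exact Finset.sum_eq_zero fun i hi => h i (Finset.mem_range.1 hi)

theorem assembly {k : ℕ} (hk : 3 ≤ k) (N : ℕ) (r : ℕ → ℝ) (f : ℕ → Fld) (h0 : r 0 = 0)
    (hN : r N = 1) (hmono : ∀ i < N, r i < r (i + 1))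
    (hfld : ∀ i < N, IsFld k (r i) (r (i + 1)) (f i))
    (hadm : ∀ i < N, ∀ ρ ∈ Ioo (r i) (r (i + 1)), ∀ h, Adm k 0 (f i) ρ h)
    (hw : ∀ i, i + 1 < N → ∀ h, (f i).w (r (i + 1)) h = (f (i + 1)).w (r (i + 1)) h)
    (hJ : ∀ i, i + 1 < N → ∀ h, (f i).c (r (i + 1)) h / r (i + 1) + (f i).P (r (i + 1)) h ≤
      (f (i + 1)).c (r (i + 1)) h / r (i + 1) + (f (i + 1)).P (r (i + 1)) h)
    {K R : ℝ} (hK : 0 < K) (hR : 0 < R)
    (hT : ∀ i < N, ∀ s ∈ arc (r i) (r (i + 1)),
      |(f i).P (sin s) (1 - cos s) * sin s -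
        (f i).w (sin s) (1 - cos s) * (cos s ^ 2 - sin s ^ 2) / cos s| ≤
        4 * K * R ^ 2 / (sin s + R) ^ 2) :
    Rep k (fun A B => ∑ i ∈ Finset.range N, ∫ s in arc (r i) (r (i + 1)),
      dens k K R (f i) s * (sin s * A (sin s, cos s) + cos s * B (sin s, cos s))) := by
  classical
  obtain ⟨M, rfl⟩ : ∃ M, N = M + 1 := by
    rcases N with _ | M
    · rw [h0] at hN; norm_num at hN
    · exact ⟨M, rfl⟩
  -- monotonicity of the radii
  have hr0 : ∀ i ≤ M + 1, 0 ≤ r i := by
    intro i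
    induction i with
    | zero => intro _; exact h0.ge
    | succ i ih => intro hi; exact (ih (by omega)).trans (hmono i (by omega)).le
  have hr1 : ∀ j ≤ M + 1, r (M + 1 - j) ≤ 1 := by
    intro j
    induction j with
    | zero => intro _; exact hN.le
    | succ j ih =>
      intro hj
      have h1 := ih (by omega)
      have h2 := hmono (M + 1 - (j + 1)) (by omega)
      rw [show M + 1 - (j + 1) + 1 = M + 1 - j by omega] at h2
      linarith
  have hr1' : ∀ i ≤ M + 1, r i ≤ 1 := by
    intro i hi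
    have := hr1 (M + 1 - i) (by omega)
    rwa [show M + 1 - (M + 1 - i) = i by omega] at this
  have hmem : ∀ i ≤ M, ∀ s ∈ arc (r i) (r (i + 1)), 0 < s ∧ s < π := fun i _ s hs => ⟨hs.1, hs.2.1⟩
  -- the zones
  have hZ := Rep.sum (M + 1) fun i hi => zone_rep hk (hr0 i hi.le) (hmono i hi)
    (hr1' (i + 1) (by omega)) (hfld i hi) (hadm i hi)
  -- the cylinders
  obtain ⟨J, hJd⟩ : ∃ J : ℕ → ℝ → ℝ, J = fun i z => r (i + 1) ^ (k - 1) *
      (((f (i + 1)).c (r (i + 1)) (1 - z) / r (i + 1) + (f (i + 1)).P (r (i + 1)) (1 - z)) -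
        ((f i).c (r (i + 1)) (1 - z) / r (i + 1) + (f i).P (r (i + 1)) (1 - z))) := ⟨_, rfl⟩
  have hrp : ∀ i < M + 1, 0 < r (i + 1) := fun i hi => (hr0 i hi.le).trans_lt (hmono i hi)
  have hJc : ∀ i < M, Continuous (J i) := by
    intro i hi
    have c1 : Continuous (fun z => (f i).c (r (i + 1)) (1 - z)) :=
      cont_vert (hfld i (by omega)).cont_c ⟨(hmono i (by omega)).le, le_rfl⟩
    have c2 : Continuous (fun z => (f i).P (r (i + 1)) (1 - z)) :=
      cont_vert (hfld i (by omega)).cont_P ⟨(hmono i (by omega)).le, le_rfl⟩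
    have c3 : Continuous (fun z => (f (i + 1)).c (r (i + 1)) (1 - z)) :=
      cont_vert (hfld (i + 1) (by omega)).cont_c ⟨le_rfl, (hmono (i + 1) (by omega)).le⟩
    have c4 : Continuous (fun z => (f (i + 1)).P (r (i + 1)) (1 - z)) :=
      cont_vert (hfld (i + 1) (by omega)).cont_P ⟨le_rfl, (hmono (i + 1) (by omega)).le⟩
    rw [hJd]
    exact continuous_const.mul (((c3.div_const _).add c4).sub ((c1.div_const _).add c2))
  have hJ0 : ∀ i < M, ∀ z, 0 ≤ J i z := by
    intro i hi z
    rw [hJd]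
    have h1 := hJ i (by omega) (1 - z)
    have h2 := hrp i (by omega)
    exact mul_nonneg (by positivity) (by linarith)
  have hC := Rep.sum M fun i hi => rep_cyl hk (hrp i (by omega))
    ((hmono (i + 1) (by omega)).trans_le (hr1' (i + 2) (by omega))) (hJc i hi) (hJ0 i hi)
  -- the sphere
  obtain ⟨T0, hT0⟩ : ∃ T0 : ℕ → ℝ → ℝ, T0 = fun i s => (f i).P (sin s) (1 - cos s) * sin s -
      (f i).w (sin s) (1 - cos s) * (cos s ^ 2 - sin s ^ 2) / cos s := ⟨_, rfl⟩
  obtain ⟨T, hTd⟩ : ∃ T : ℝ → ℝ, T = fun s => ∑ i ∈ Finset.range (M + 1),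
      (arc (r i) (r (i + 1))).indicator (T0 i) s := ⟨_, rfl⟩
  have hlt : ∀ j, ∀ i, i < j → j ≤ M + 1 → r (i + 1) ≤ r j := by
    intro j
    induction j with
    | zero => intro i hi; omega
    | succ j ih =>
      intro i hi hj
      rcases Nat.lt_or_ge i j with h | h
      · exact (ih i h (by omega)).trans (hmono j (by omega)).le
      · have : i = j := by omega
        rw [this]
  have hTarc : ∀ i < M + 1, ∀ s ∈ arc (r i) (r (i + 1)), T s = T0 i s := by
    intro i hi s hs
    rw [hTd]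
    simp only
    rw [Finset.sum_eq_single i]
    · exact indicator_of_mem hs _
    · intro j hj hji
      rw [Finset.mem_range] at hj
      refine indicator_of_notMem ?_ _
      rintro ⟨_, _, h3, h4⟩
      obtain ⟨_, _, h5, h6⟩ := hs
      rcases lt_or_gt_of_ne hji with h | h
      · have := hlt i j h (by omega); linarith
      · have := hlt j i h (by omega); linarith
    · intro h; exact absurd (Finset.mem_range.2 hi) h
  have hTout : ∀ s, (∀ i < M + 1, s ∉ arc (r i) (r (i + 1))) → T s = 0 := by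
    intro s hs
    rw [hTd]
    exact Finset.sum_eq_zero fun i hi => indicator_of_notMem (hs i (Finset.mem_range.1 hi)) _
  have hQpos : ∀ s ∈ Ioo 0 π, 0 ≤ 4 * K * R ^ 2 / (sin s + R) ^ 2 := by
    intro s hs
    have := sin_pos_of_pos_of_lt_pi hs.1 hs.2
    positivity
  have hTb : ∀ s ∈ Ioo 0 π, |T s| ≤ 4 * K * R ^ 2 / (sin s + R) ^ 2 := by
    intro s hs
    by_cases h : ∃ i, i < M + 1 ∧ s ∈ arc (r i) (r (i + 1))
    · obtain ⟨i, hi, hs'⟩ := h
      rw [hTarc i hi s hs', hT0]
      exact hT i hi s hs'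
    · push Not at h
      rw [hTout s h, abs_zero]
      exact hQpos s hs
  have hTm : AEStronglyMeasurable T (volume.restrict (Ioo 0 π)) := by
    rw [hTd]
    refine Finset.aestronglyMeasurable_fun_sum _ fun i hi => ?_
    rw [Finset.mem_range] at hi
    refine AEStronglyMeasurable.mono_measure ?_ Measure.restrict_le_self
    rw [aestronglyMeasurable_indicator_iff (measurableSet_arc _ _)]
    have m1 := (integrableOn_arc (hfld i hi).cont_P).aestronglyMeasurable
    have m2 := (integrableOn_arc (hfld i hi).cont_w).aestronglyMeasurable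
    rw [hT0]
    have m3 : AEStronglyMeasurable (fun s => sin s) (volume.restrict (arc (r i) (r (i + 1)))) :=
      continuous_sin.aestronglyMeasurable
    have m4 : AEStronglyMeasurable (fun s => (cos s ^ 2 - sin s ^ 2))
        (volume.restrict (arc (r i) (r (i + 1)))) :=
      Continuous.aestronglyMeasurable (by fun_prop)
    have m5 : AEStronglyMeasurable (fun s => cos s) (volume.restrict (arc (r i) (r (i + 1)))) :=
      continuous_cos.aestronglyMeasurable
    exact (m1.mul m3).sub ((m2.mul m4).div₀ m5)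
  have hS := rep_sheet hk hK hR hTm hTb
  -- the sum
  refine ((hZ.add hC).add hS).congr fun A B hA hB => ?_
  have hAc := hA.continuous
  have hBc := hB.continuous
  -- integrability
  obtain ⟨g, hg⟩ : ∃ g : ℝ → ℝ, g = fun s =>
      ((4 * K * R ^ 2 / (sin s + R) ^ 2 * sin s ^ k +
          k * (4 * K * R * sin s / (sin s + R)) * sin s ^ (k - 1)) *
          (sin s * A (sin s, cos s) + cos s * B (sin s, cos s)) -
        sin s ^ (k - 1) * T s * A (sin s, cos s)) := ⟨_, rfl⟩
  have hAs : Continuous (fun s => A (sin s, cos s)) := hAc.comp (by fun_prop)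
  have hBs : Continuous (fun s => B (sin s, cos s)) := hBc.comp (by fun_prop)
  have hgi : IntegrableOn g (Ioo 0 π) := by
    rw [hg]
    refine Integrable.sub ?_ ?_
    · have h1 : ContinuousOn (fun s => (4 * K * R ^ 2 / (sin s + R) ^ 2 * sin s ^ k +
          k * (4 * K * R * sin s / (sin s + R)) * sin s ^ (k - 1)) *
          (sin s * A (sin s, cos s) + cos s * B (sin s, cos s))) (Icc 0 π) := by
        have hne : ∀ s ∈ Icc 0 π, sin s + R ≠ 0 := by
          intro s hs
          have := sin_nonneg_of_nonneg_of_le_pi hs.1 hs.2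
          positivity
        refine ContinuousOn.mul (ContinuousOn.add (ContinuousOn.mul (ContinuousOn.div (by fun_prop)
          (by fun_prop) fun s hs => pow_ne_zero 2 (hne s hs)) (by fun_prop))
          (ContinuousOn.mul (ContinuousOn.mul (by fun_prop) (ContinuousOn.div (by fun_prop)
          (by fun_prop) hne)) (by fun_prop))) (Continuous.continuousOn (by fun_prop))
      exact (h1.integrableOn_compact isCompact_Icc).mono_set Ioo_subset_Icc_self
    · have hbd : ∀ s ∈ Ioo 0 π, |T s| ≤ 4 * K := by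
        intro s hs
        refine (hTb s hs).trans ?_
        have := sin_pos_of_pos_of_lt_pi hs.1 hs.2
        rw [div_le_iff₀ (by positivity)]
        have h2 : R ^ 2 ≤ (sin s + R) ^ 2 := by nlinarith
        nlinarith
      have h1 : IntegrableOn (fun s => sin s ^ (k - 1) * A (sin s, cos s)) (Ioo 0 π) :=
        ((Continuous.continuousOn (by fun_prop)).integrableOn_compact
          isCompact_Icc).mono_set Ioo_subset_Icc_self
      have h2 := h1.mul_bdd (c := 4 * K) hTm ?_
      · refine h2.congr (Filter.Eventually.of_forall fun s => ?_)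
        ring
      · rw [ae_restrict_iff' measurableSet_Ioo]
        exact Filter.Eventually.of_forall fun s hs => by
          rw [Real.norm_eq_abs]; exact hbd s hs
  have hZi : ∀ i < M + 1, IntegrableOn (fun s => sin s * Uf k (f i) A B (sin s, cos s) +
      cos s * Vf k (f i) A B (sin s, cos s)) (arc (r i) (r (i + 1))) := by
    intro i hi
    have hc := isCompact_Icc (a := (0 : ℝ)) (b := π) |>.inter_right
      ((isClosed_Icc (a := r i) (b := r (i + 1))).preimage continuous_sin)
    have k1 : ∀ {G : Pt → ℝ}, ContinuousOn G (Icc (r i) (r (i + 1)) ×ˢ univ) →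
        ContinuousOn (fun s => G (sin s, 1 - cos s)) (Icc 0 π ∩ sin ⁻¹' (Icc (r i) (r (i + 1)))) := by
      intro G hG
      refine hG.comp (Continuous.continuousOn (by fun_prop)) ?_
      rintro s ⟨_, hs⟩
      exact ⟨hs, mem_univ _⟩
    have k2 := k1 (hfld i hi).cont_c
    have k3 := k1 (hfld i hi).cont_w
    have k4 := k1 (hfld i hi).cont_P
    have k5 : ContinuousOn (fun s => sin s * Uf k (f i) A B (sin s, cos s) +
        cos s * Vf k (f i) A B (sin s, cos s)) (Icc 0 π ∩ sin ⁻¹' (Icc (r i) (r (i + 1)))) := by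
      unfold Uf Vf
      fun_prop
    refine (k5.integrableOn_compact hc).mono_set ?_
    rintro s ⟨h0, h2, h3, h4⟩
    exact ⟨⟨h0.le, h2.le⟩, ⟨h3.le, h4.le⟩⟩
  have e1 : ∫ s in Ioo 0 π, g s = ∑ i ∈ Finset.range (M + 1),
      ∫ s in arc (r i) (r (i + 1)), g s := by
    rw [← integral_arc_univ, ← integral_arc_sum (M + 1) hmono hgi, h0, hN]
  have e2 : ∀ i < M + 1, (∫ s in arc (r i) (r (i + 1)), (sin s * Uf k (f i) A B (sin s, cos s) +
      cos s * Vf k (f i) A B (sin s, cos s))) + ∫ s in arc (r i) (r (i + 1)), g s =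
      ∫ s in arc (r i) (r (i + 1)),
        dens k K R (f i) s * (sin s * A (sin s, cos s) + cos s * B (sin s, cos s)) := by
    intro i hi
    rw [← integral_add (hZi i hi) (hgi.mono_set fun s hs => ⟨hs.1, hs.2.1⟩)]
    refine setIntegral_congr_ae (measurableSet_arc _ _) ?_
    have hne : ∀ᵐ s ∂(volume : Measure ℝ), s ≠ π / 2 := by
      rw [ae_iff]
      simp
    filter_upwards [hne] with s hs hsa
    have hcos : cos s ≠ 0 := by
      obtain ⟨h1, h2, _, _⟩ := hsa
      rcases lt_or_gt_of_ne hs with h | h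
      · exact (cos_pos_of_mem_Ioo ⟨by linarith, h⟩).ne'
      · exact (cos_neg_of_pi_div_two_lt_of_lt h (by linarith)).ne
    rw [← arc_identity hk K R (f i) A B hcos, hg]
    simp only
    rw [hTarc i hi s hsa, hT0]
  -- the flux through the cylinders
  obtain ⟨a, ha⟩ : ∃ a : ℕ → ℝ, a = fun i => ∫ z in Ioo (-zz (r (i + 1))) (zz (r (i + 1))),
      Uf k (f i) A B (r (i + 1), z) := ⟨_, rfl⟩
  obtain ⟨b, hb⟩ : ∃ b : ℕ → ℝ, b = fun i => ∫ z in Ioo (-zz (r i)) (zz (r i)),
      Uf k (f i) A B (r i, z) := ⟨_, rfl⟩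
  have hta : a M = 0 := by
    rw [ha]
    simp only
    rw [hN, zz_one]
    simp
  have htb : b 0 = 0 := by
    rw [hb]
    simp only
    have : ∀ z, Uf k (f 0) A B (r 0, z) = 0 := by
      intro z
      unfold Uf
      rw [h0]
      simp only
      rw [zero_pow (by omega), zero_pow (by omega)]
      ring
    simp only [this]
    simp
  have ht := telescope M a b (fun i => ∫ z in Ioo (-zz (r (i + 1))) (zz (r (i + 1))),
      J i z * A (r (i + 1), z)) hta htb ?_
  · have hsplit : ∑ i ∈ Finset.range (M + 1),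
        ((∫ s in arc (r i) (r (i + 1)), (sin s * Uf k (f i) A B (sin s, cos s) +
          cos s * Vf k (f i) A B (sin s, cos s))) +
        (∫ z in Ioo (-zz (r (i + 1))) (zz (r (i + 1))), Uf k (f i) A B (r (i + 1), z)) -
        ∫ z in Ioo (-zz (r i)) (zz (r i)), Uf k (f i) A B (r i, z)) =
        ∑ i ∈ Finset.range (M + 1), (∫ s in arc (r i) (r (i + 1)),
          (sin s * Uf k (f i) A B (sin s, cos s) + cos s * Vf k (f i) A B (sin s, cos s))) +
        ∑ i ∈ Finset.range (M + 1), (a i - b i) := by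
      rw [← Finset.sum_add_distrib]
      refine Finset.sum_congr rfl fun i _ => ?_
      rw [ha, hb]
      ring
    have hg' : ∫ s in Ioo 0 π, ((4 * K * R ^ 2 / (sin s + R) ^ 2 * sin s ^ k +
          k * (4 * K * R * sin s / (sin s + R)) * sin s ^ (k - 1)) *
          (sin s * A (sin s, cos s) + cos s * B (sin s, cos s)) -
        sin s ^ (k - 1) * T s * A (sin s, cos s)) = ∫ s in Ioo 0 π, g s := by rw [hg]
    rw [hsplit, hg', e1]
    have h5 : ∑ i ∈ Finset.range (M + 1), ∫ s in arc (r i) (r (i + 1)),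
        dens k K R (f i) s * (sin s * A (sin s, cos s) + cos s * B (sin s, cos s)) =
        ∑ i ∈ Finset.range (M + 1), ((∫ s in arc (r i) (r (i + 1)),
          (sin s * Uf k (f i) A B (sin s, cos s) + cos s * Vf k (f i) A B (sin s, cos s))) +
          ∫ s in arc (r i) (r (i + 1)), g s) :=
      Finset.sum_congr rfl fun i hi => (e2 i (Finset.mem_range.1 hi)).symm
    rw [h5, Finset.sum_add_distrib]
    linarith
  · intro i hi
    rw [ha, hb]
    simp only
    have hm1 : r (i + 1) ∈ Icc (r i) (r (i + 1)) := ⟨(hmono i (by omega)).le, le_rfl⟩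
    have hm2 : r (i + 1) ∈ Icc (r (i + 1)) (r (i + 2)) := ⟨le_rfl, (hmono (i + 1) (by omega)).le⟩
    have i1 : IntegrableOn (fun z => Uf k (f i) A B (r (i + 1), z))
        (Ioo (-zz (r (i + 1))) (zz (r (i + 1)))) :=
      ((cont_Uf (hfld i (by omega)) hAc hBc hm1).continuousOn.integrableOn_compact
        isCompact_Icc).mono_set Ioo_subset_Icc_self
    have i2 : IntegrableOn (fun z => Uf k (f (i + 1)) A B (r (i + 1), z))
        (Ioo (-zz (r (i + 1))) (zz (r (i + 1)))) :=
      ((cont_Uf (hfld (i + 1) (by omega)) hAc hBc hm2).continuousOn.integrableOn_compact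
        isCompact_Icc).mono_set Ioo_subset_Icc_self
    have i3 : IntegrableOn (fun z => J i z * A (r (i + 1), z))
        (Ioo (-zz (r (i + 1))) (zz (r (i + 1)))) := by
      have h4 : Continuous (fun z => A (r (i + 1), z)) := hAc.comp (by fun_prop)
      exact (((hJc i hi).mul h4).continuousOn.integrableOn_compact
        isCompact_Icc).mono_set Ioo_subset_Icc_self
    have i12 : IntegrableOn (fun z => Uf k (f i) A B (r (i + 1), z) -
        Uf k (f (i + 1)) A B (r (i + 1), z)) (Ioo (-zz (r (i + 1))) (zz (r (i + 1)))) := i1.sub i2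
    rw [← integral_sub i1 i2, ← integral_add i12 i3]
    refine integral_eq_zero_of_ae (Filter.Eventually.of_forall fun z => ?_)
    have hrne : r (i + 1) ≠ 0 := (hrp i (by omega)).ne'
    have hw' := hw i (by omega) (1 - z)
    show Uf k (f i) A B (r (i + 1), z) - Uf k (f (i + 1)) A B (r (i + 1), z) +
      J i z * A (r (i + 1), z) = 0
    unfold Uf
    rw [hJd]
    simp only
    rw [hw']
    obtain ⟨j, rfl⟩ : ∃ j, k = j + 2 := ⟨k - 2, by omega⟩
    simp only [Nat.add_sub_cancel, show j + 2 - 1 = j + 1 from rfl]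
    field_simp
    ring

end Pool.Agent.Helper19.LB
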