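import Pool.Agent.Helper81.FBMBasic

/-!
# Stationary data with many symmetries: definitions

A rotationally symmetric varifold is described by measures on the half plane with coordinates
`x = (ρ, z)`. A test field is given by its radial component `A` and its axial component `B`.
-/

open MeasureTheory Set Real
open scoped ContDiff RealInnerProductSpace

namespace Pool.Agent.Helper19.LB

noncomputable section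

/-- Points `(ρ, z)` of the half plane. -/
abbrev Pt := ℝ × ℝ

/-- The partial derivative in the direction `ρ`. -/
def dr (A : Pt → ℝ) (x : Pt) : ℝ := fderiv ℝ A x (1, 0)

/-- The partial derivative in the direction `z`. -/
def dz (A : Pt → ℝ) (x : Pt) : ℝ := fderiv ℝ A x (0, 1)

/-- Averaged divergence along planes spanned by both directions of the half plane and `k - 2`
angular directions. -/
def La (k : ℕ) (A B : Pt → ℝ) (x : Pt) : ℝ := dr A x + dz B x + (k - 2) * (A x / x.1)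

/-- Averaged divergence along planes spanned by the direction `τ` of the half plane and `k - 1`
angular directions. -/
def Lb (k : ℕ) (A B : Pt → ℝ) (x τ : Pt) : ℝ :=
  τ.1 ^ 2 * dr A x + τ.1 * τ.2 * (dz A x + dr B x) + τ.2 ^ 2 * dz B x + (k - 1) * (A x / x.1)

/-- Averaged divergence along planes spanned by `k` angular directions. -/
def Lc (k : ℕ) (A : Pt → ℝ) (x : Pt) : ℝ := k * (A x / x.1)

/-- The part of the half plane which lies in the unit ball. -/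
def disc : Set Pt := {x | 0 < x.1 ∧ x.1 ^ 2 + x.2 ^ 2 ≤ 1}

/-- The functional `r` is the first variation of a rotationally symmetric varifold. -/
def Rep (k : ℕ) (r : (Pt → ℝ) → (Pt → ℝ) → ℝ) : Prop :=
  ∃ (la lc : Measure Pt) (lb : Measure (Pt × Pt)),
    IsFiniteMeasure la ∧ IsFiniteMeasure lb ∧ IsFiniteMeasure lc ∧
    (∀ᵐ x ∂la, x ∈ disc) ∧ (∀ᵐ x ∂lb, x.1 ∈ disc ∧ x.2.1 ^ 2 + x.2.2 ^ 2 = 1) ∧
    (∀ᵐ x ∂lc, x ∈ disc) ∧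
    Integrable (fun x => 1 / x.1) la ∧ Integrable (fun x => 1 / x.1.1) lb ∧
    Integrable (fun x => 1 / x.1) lc ∧
    ∀ A B : Pt → ℝ, ContDiff ℝ ∞ A → ContDiff ℝ ∞ B →
      ∫ x, La k A B x ∂la + ∫ x, Lb k A B x.1 x.2 ∂lb + ∫ x, Lc k A x ∂lc = r A B

/-- The part of the half disc with `α < ρ < β`. -/
def zone (α β : ℝ) : Set Pt := {x | α < x.1 ∧ x.1 < β ∧ x.1 ^ 2 + x.2 ^ 2 < 1}

/-- The part of the half circle with `α < ρ < β`, in terms of the angle. -/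
def arc (α β : ℝ) : Set ℝ := {s | 0 < s ∧ s < π ∧ α < sin s ∧ sin s < β}

/-- Half of the length of the vertical chord at distance `a` from the axis. -/
def zz (a : ℝ) : ℝ := √(1 - a ^ 2)

/-- The fields of a zone as functions of `ρ` and of the depth `h = 1 - z`: `c` is the density of the
vertical stress, `w` the shear, `P` the excess of the radial stress, `c1`, `w1`, `P1` are the
derivatives in `ρ` and `w2` is the derivative of `w` in `h`. -/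
structure Fld where
  c : ℝ → ℝ → ℝ
  c1 : ℝ → ℝ → ℝ
  w : ℝ → ℝ → ℝ
  w1 : ℝ → ℝ → ℝ
  w2 : ℝ → ℝ → ℝ
  P : ℝ → ℝ → ℝ
  P1 : ℝ → ℝ → ℝ

/-- The fields are continuous, the derivatives are what they should be, and the vertical forces are
in equilibrium. -/
structure IsFld (k : ℕ) (α β : ℝ) (f : Fld) : Prop where
  cont_c : ContinuousOn (fun x : Pt => f.c x.1 x.2) (Icc α β ×ˢ univ)
  cont_c1 : ContinuousOn (fun x : Pt => f.c1 x.1 x.2) (Icc α β ×ˢ univ)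
  cont_w : ContinuousOn (fun x : Pt => f.w x.1 x.2) (Icc α β ×ˢ univ)
  cont_w1 : ContinuousOn (fun x : Pt => f.w1 x.1 x.2) (Icc α β ×ˢ univ)
  cont_w2 : ContinuousOn (fun x : Pt => f.w2 x.1 x.2) (Icc α β ×ˢ univ)
  cont_P : ContinuousOn (fun x : Pt => f.P x.1 x.2) (Icc α β ×ˢ univ)
  cont_P1 : ContinuousOn (fun x : Pt => f.P1 x.1 x.2) (Icc α β ×ˢ univ)
  d_cr : ∀ ρ ∈ Ioo α β, ∀ h, HasDerivAt (fun r => f.c r h) (f.c1 ρ h) ρ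
  d_ch : ∀ ρ ∈ Ioo α β, ∀ h,
    HasDerivAt (fun t => f.c ρ t) (-((k - 1) * f.w ρ h + ρ * f.w1 ρ h)) h
  d_wr : ∀ ρ ∈ Ioo α β, ∀ h, HasDerivAt (fun r => f.w r h) (f.w1 ρ h) ρ
  d_wh : ∀ ρ ∈ Ioo α β, ∀ h, HasDerivAt (fun t => f.w ρ t) (f.w2 ρ h) h
  d_P : ∀ ρ ∈ Ioo α β, ∀ h, HasDerivAt (fun r => f.P r h) (f.P1 ρ h) ρ

/-- The fields are admissible at `(ρ, h)`, with budget `b`: the masses of the four types of planes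
are nonnegative. -/
structure Adm (k : ℕ) (b : ℝ) (f : Fld) (ρ h : ℝ) : Prop where
  nonneg : 0 ≤ f.P ρ h
  zero : f.P ρ h = 0 → f.w ρ h = 0
  mass : ρ * (f.w ρ h ^ 2 / f.P ρ h) ≤ f.c ρ h + b
  hoop : k * (f.w ρ h ^ 2 / f.P ρ h) / ρ ≤ f.c1 ρ h / ρ + f.P1 ρ h + f.w2 ρ h

namespace Fld

/-- Superposition. -/
def add (f g : Fld) : Fld where
  c ρ h := f.c ρ h + g.c ρ h
  c1 ρ h := f.c1 ρ h + g.c1 ρ h
  w ρ h := f.w ρ h + g.w ρ h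
  w1 ρ h := f.w1 ρ h + g.w1 ρ h
  w2 ρ h := f.w2 ρ h + g.w2 ρ h
  P ρ h := f.P ρ h + g.P ρ h
  P1 ρ h := f.P1 ρ h + g.P1 ρ h

/-- Scaling by the factor `ε`. -/
def scale (ε : ℝ) (f : Fld) : Fld where
  c ρ h := f.c (ρ / ε) (h / ε)
  c1 ρ h := f.c1 (ρ / ε) (h / ε) / ε
  w ρ h := f.w (ρ / ε) (h / ε) / ε
  w1 ρ h := f.w1 (ρ / ε) (h / ε) / ε ^ 2
  w2 ρ h := f.w2 (ρ / ε) (h / ε) / ε ^ 2
  P ρ h := f.P (ρ / ε) (h / ε) / ε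
  P1 ρ h := f.P1 (ρ / ε) (h / ε) / ε ^ 2

/-- Flat discs through the axis. -/
def flat (c₀ : ℝ) : Fld where
  c _ _ := c₀
  c1 _ _ := 0
  w _ _ := 0
  w1 _ _ := 0
  w2 _ _ := 0
  P _ _ := 0
  P1 _ _ := 0

/-- The stream function `f ρ * exp (-l * h ^ 2)` with excess stress `g ρ * exp (-l * h ^ 2 / 2)`. -/
def prod (k : ℕ) (l : ℝ) (f f' f'' g g' : ℝ → ℝ) : Fld where
  c ρ h := ((k - 1) * f ρ + ρ * f' ρ) * exp (-l * h ^ 2)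
  c1 ρ h := (k * f' ρ + ρ * f'' ρ) * exp (-l * h ^ 2)
  w ρ h := 2 * l * h * f ρ * exp (-l * h ^ 2)
  w1 ρ h := 2 * l * h * f' ρ * exp (-l * h ^ 2)
  w2 ρ h := (2 * l - 4 * l ^ 2 * h ^ 2) * f ρ * exp (-l * h ^ 2)
  P ρ h := g ρ * exp (-l * h ^ 2 / 2)
  P1 ρ h := g' ρ * exp (-l * h ^ 2 / 2)

/-- The coefficient of the stream function of the fan. -/
def fph (ρ₀ φ ρ : ℝ) : ℝ := φ * (ρ - ρ₀)

/-- The height of the fan. -/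
def fy (ρ₀ φ y₀ M ρ : ℝ) : ℝ := y₀ + φ * (ρ - ρ₀) ^ 2 / M

/-- The derivative of the height of the fan. -/
def fy1 (ρ₀ φ M ρ : ℝ) : ℝ := 2 * (φ * (ρ - ρ₀)) / M

/-- The fan: stream function `φ * (ρ - ρ₀) * exp (-h ^ 2 / y ^ 2)` with
`y = y₀ + φ * (ρ - ρ₀) ^ 2 / M` and excess stress `M * (1 / y + κ) * exp (-h ^ 2 / y ^ 2)`. -/
def fan (k : ℕ) (ρ₀ φ y₀ M κ : ℝ) : Fld where
  c ρ h := (k - 1) * fph ρ₀ φ ρ * exp (-h ^ 2 / fy ρ₀ φ y₀ M ρ ^ 2) +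
    ρ * ((φ + 2 * (h ^ 2 / fy ρ₀ φ y₀ M ρ ^ 2) * fph ρ₀ φ ρ * fy1 ρ₀ φ M ρ / fy ρ₀ φ y₀ M ρ) *
      exp (-h ^ 2 / fy ρ₀ φ y₀ M ρ ^ 2))
  c1 ρ h := k * ((φ + 2 * (h ^ 2 / fy ρ₀ φ y₀ M ρ ^ 2) * fph ρ₀ φ ρ * fy1 ρ₀ φ M ρ /
      fy ρ₀ φ y₀ M ρ) * exp (-h ^ 2 / fy ρ₀ φ y₀ M ρ ^ 2)) +
    ρ * ((4 * (h ^ 2 / fy ρ₀ φ y₀ M ρ ^ 2) * φ * fy1 ρ₀ φ M ρ / fy ρ₀ φ y₀ M ρ
      + 2 * (h ^ 2 / fy ρ₀ φ y₀ M ρ ^ 2) * fph ρ₀ φ ρ * (2 * φ / M) / fy ρ₀ φ y₀ M ρ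
      - 6 * (h ^ 2 / fy ρ₀ φ y₀ M ρ ^ 2) * fph ρ₀ φ ρ * fy1 ρ₀ φ M ρ ^ 2 / fy ρ₀ φ y₀ M ρ ^ 2
      + 4 * (h ^ 2 / fy ρ₀ φ y₀ M ρ ^ 2) ^ 2 * fph ρ₀ φ ρ * fy1 ρ₀ φ M ρ ^ 2 /
        fy ρ₀ φ y₀ M ρ ^ 2) * exp (-h ^ 2 / fy ρ₀ φ y₀ M ρ ^ 2))
  w ρ h := 2 * h / fy ρ₀ φ y₀ M ρ ^ 2 * fph ρ₀ φ ρ * exp (-h ^ 2 / fy ρ₀ φ y₀ M ρ ^ 2)
  w1 ρ h := 2 * h / fy ρ₀ φ y₀ M ρ ^ 2 * (φ - 2 * fph ρ₀ φ ρ * fy1 ρ₀ φ M ρ / fy ρ₀ φ y₀ M ρ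
      + 2 * (h ^ 2 / fy ρ₀ φ y₀ M ρ ^ 2) * fph ρ₀ φ ρ * fy1 ρ₀ φ M ρ / fy ρ₀ φ y₀ M ρ) *
    exp (-h ^ 2 / fy ρ₀ φ y₀ M ρ ^ 2)
  w2 ρ h := 2 * fph ρ₀ φ ρ / fy ρ₀ φ y₀ M ρ ^ 2 * (1 - 2 * (h ^ 2 / fy ρ₀ φ y₀ M ρ ^ 2)) *
    exp (-h ^ 2 / fy ρ₀ φ y₀ M ρ ^ 2)
  P ρ h := M * (1 / fy ρ₀ φ y₀ M ρ + κ) * exp (-h ^ 2 / fy ρ₀ φ y₀ M ρ ^ 2)
  P1 ρ h := M * (-fy1 ρ₀ φ M ρ / fy ρ₀ φ y₀ M ρ ^ 2 + (1 / fy ρ₀ φ y₀ M ρ + κ) *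
      (2 * (h ^ 2 / fy ρ₀ φ y₀ M ρ ^ 2) * fy1 ρ₀ φ M ρ / fy ρ₀ φ y₀ M ρ)) *
    exp (-h ^ 2 / fy ρ₀ φ y₀ M ρ ^ 2)

end Fld

/-- The radial flux of the fields of a zone, tested with `(A, B)`. -/
def Uf (k : ℕ) (f : Fld) (A B : Pt → ℝ) (x : Pt) : ℝ :=
  (f.c x.1 (1 - x.2) * x.1 ^ (k - 2) + f.P x.1 (1 - x.2) * x.1 ^ (k - 1)) * A x -
    f.w x.1 (1 - x.2) * x.1 ^ (k - 1) * B x

/-- The axial flux of the fields of a zone, tested with `(A, B)`. -/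
def Vf (k : ℕ) (f : Fld) (A B : Pt → ℝ) (x : Pt) : ℝ :=
  -(f.w x.1 (1 - x.2) * x.1 ^ (k - 1)) * A x + f.c x.1 (1 - x.2) * x.1 ^ (k - 2) * B x

/-- The density of the boundary measure of the complete datum at the angle `s`, if the fields near
that point of the sphere are `f`; `K` and `r` are the parameters of the sheet in the sphere. -/
def dens (k : ℕ) (K r : ℝ) (f : Fld) (s : ℝ) : ℝ :=
  f.c (sin s) (1 - cos s) * sin s ^ (k - 2) - f.w (sin s) (1 - cos s) * sin s ^ k / cos s +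
    4 * K * r ^ 2 / (sin s + r) ^ 2 * sin s ^ k +
    k * (4 * K * r * sin s / (sin s + r)) * sin s ^ (k - 1)

end

end Pool.Agent.Helper19.LB
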