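import Pool.Agent.Helper19.LB.Defs

/-!
# Families of frames
-/

open MeasureTheory Set Real Module
open scoped ContDiff RealInnerProductSpace

namespace Pool.Agent.Helper19.LB

open FBM

/-- A family of frames of `E n`, parametrised by a probability space `Om`: the vectors
`R θ, a, T θ 0, …, T θ (k - 1)` are orthonormal, and the average divergence of a field `X` in the
directions `T θ j` is the one of the sphere with centre on the line `ℝ a`. -/
structure Family (n k : ℕ) {Om : Type} [TopologicalSpace Om] [MeasurableSpace Om]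
    (nu : Measure Om) (R : Om → E n) (T : Om → Fin k → E n) (a : E n) : Prop where
  prob : IsProbabilityMeasure nu
  cont_R : Continuous R
  cont_T : ∀ j, Continuous fun θ => T θ j
  orth_T : ∀ θ, Orthonormal ℝ (T θ)
  norm_R : ∀ θ, ‖R θ‖ = 1
  norm_a : ‖a‖ = 1
  inner_R_a : ∀ θ, ⟪R θ, a⟫ = 0
  inner_R_T : ∀ θ j, ⟪R θ, T θ j⟫ = 0
  inner_a_T : ∀ θ j, ⟪a, T θ j⟫ = 0
  hoop : ∀ X : E n → E n, ContDiff ℝ ∞ X → ∀ x : Pt, x.1 ≠ 0 →
    ∫ θ, ∑ j, ⟪T θ j, fderiv ℝ X (x.1 • R θ + x.2 • a) (T θ j)⟫ ∂nu =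
      k / x.1 * ∫ θ, ⟪X (x.1 • R θ + x.2 • a), R θ⟫ ∂nu

end Pool.Agent.Helper19.LB
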