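import Pool.Agent.Helper19.LB.Main2
import Pool.Agent.Helper99.LB.Gen4
import Pool.Agent.Helper13.LB.Orth

/-!
# Stationary data with a large conformal ratio
-/

open MeasureTheory Set Real FBM
open scoped ContDiff RealInnerProductSpace

namespace Pool.Agent.Helper19.LB2

open Pool.Agent.Helper19.LB

theorem exists_eps {m K₁ : ℝ} {k : ℕ} (hm : 20 ≤ m) (hk : 3 ≤ k) (hK : 0 < K₁) :
    ∃ ε : ℝ, 0 < ε ∧ ε * (201 / 100 * rb m) ≤ 1 / 2 ∧ ε ≤ 1 / (8 * m ^ 3) ∧ ε ≤ 1 / (200 * k) ∧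
      (177 + 144 * k) * K₁ * RR m ε * π ≤ 1 := by
  obtain ⟨h1, h2⟩ := rb_bounds hm
  have hm0 : 0 < m := by linarith
  have hk0 : (0 : ℝ) < k := by
    have : (3 : ℝ) ≤ k := by exact_mod_cast hk
    linarith
  have hπ := pi_pos
  refine ⟨min (1 / 8) (min (1 / (8 * m ^ 3)) (min (1 / (200 * k))
    (1 / ((177 + 144 * k) * K₁ * 4 * π)))), ?_, ?_, ?_, ?_, ?_⟩
  · exact lt_min (by norm_num) (lt_min (by positivity) (lt_min (by positivity) (by positivity)))
  · have h3 := min_le_left (1 / 8 : ℝ) (min (1 / (8 * m ^ 3)) (min (1 / (200 * k))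
      (1 / ((177 + 144 * k) * K₁ * 4 * π))))
    nlinarith
  · exact (min_le_right _ _).trans (min_le_left _ _)
  · exact (min_le_right _ _).trans ((min_le_right _ _).trans (min_le_left _ _))
  · have h3 : min (1 / 8 : ℝ) (min (1 / (8 * m ^ 3)) (min (1 / (200 * k))
      (1 / ((177 + 144 * k) * K₁ * 4 * π)))) ≤ 1 / ((177 + 144 * k) * K₁ * 4 * π) :=
      (min_le_right _ _).trans ((min_le_right _ _).trans (min_le_right _ _))
    unfold RR
    obtain ⟨ε, hε⟩ : ∃ ε : ℝ, ε = min (1 / 8 : ℝ) (min (1 / (8 * m ^ 3)) (min (1 / (200 * k))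
      (1 / ((177 + 144 * k) * K₁ * 4 * π)))) := ⟨_, rfl⟩
    rw [← hε] at h3 ⊢
    have hC : 0 < (177 + 144 * k) * K₁ * π := by positivity
    have h4 : ε * (4 * ((177 + 144 * k) * K₁ * π)) ≤ 1 := by
      rw [le_div_iff₀ (by positivity)] at h3
      linarith
    have hε0 : 0 < ε := by
      rw [hε]
      exact lt_min (by norm_num) (lt_min (by positivity) (lt_min (by positivity) (by positivity)))
    have h5 : ε * (201 / 100 * rb m) ≤ ε * 4 := mul_le_mul_of_nonneg_left (by linarith) hε0.le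
    calc (177 + 144 * k) * K₁ * (ε * (201 / 100 * rb m)) * π
        = ((177 + 144 * k) * K₁ * π) * (ε * (201 / 100 * rb m)) := by ring
      _ ≤ ((177 + 144 * k) * K₁ * π) * (ε * 4) := mul_le_mul_of_nonneg_left h5 hC.le
      _ ≤ 1 := by linarith

theorem S_le {m : ℝ} {k : ℕ} (hkm : (k : ℝ) = m ^ 4) (hm : 20 ≤ m) (hk : 160000 ≤ k) :
    Helper19.QR.S (k - 2) ≤ 2507 / 1000 / m ^ 2 := by
  have h1 := Helper33.QR.S_sq_le (n := k - 2) (by omega)
  have hm0 : 0 < m := by linarith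
  have h2 : ((k - 2 : ℕ) : ℝ) = m ^ 4 - 2 := by
    rw [Nat.cast_sub (by omega), hkm]; norm_num
  rw [h2] at h1
  have h3 : (160000 : ℝ) ≤ m ^ 4 := by rw [← hkm]; exact_mod_cast hk
  have h4 : 2 * π / (m ^ 4 - 2) ≤ (2507 / 1000 / m ^ 2) ^ 2 := by
    rw [div_pow, ← pow_mul, div_le_div_iff₀ (by linarith) (by positivity)]
    have := pi_lt_d4
    nlinarith
  have h5 : 0 ≤ 2507 / 1000 / m ^ 2 := by positivity
  exact abs_le_of_sq_le_sq' (h1.trans h4) h5 |>.2

theorem final_ineq {m S eta rb : ℝ} (hm : 20 ≤ m) (hS : S ≤ 2507 / 1000 / m ^ 2)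
    (he : eta ≤ 1 / 10000) (hr1 : 1 < rb) (hr2 : rb ≤ 401 / 400) :
    m / 120 * (27 * m ^ 3 * S + 1) ≤ 231 / 400 * (m ^ 4 - 1) * (1 - eta) / (m ^ 2 * rb) := by
  have hm0 : 0 < m := by linarith
  have h1 : 27 * m ^ 3 * S ≤ 67689 / 1000 * m := by
    calc 27 * m ^ 3 * S ≤ 27 * m ^ 3 * (2507 / 1000 / m ^ 2) :=
          mul_le_mul_of_nonneg_left hS (by positivity)
      _ = 67689 / 1000 * m := by field_simp; norm_num
  have h2 : m / 120 * (27 * m ^ 3 * S + 1) ≤ 57 / 100 * m ^ 2 := by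
    calc m / 120 * (27 * m ^ 3 * S + 1) ≤ m / 120 * (67689 / 1000 * m + 1) :=
          mul_le_mul_of_nonneg_left (by linarith) (by positivity)
      _ ≤ 57 / 100 * m ^ 2 := by nlinarith
  refine h2.trans ?_
  rw [le_div_iff₀ (by positivity)]
  have h3 : (160000 : ℝ) ≤ m ^ 4 := by
    calc (160000 : ℝ) = 20 ^ 4 := by norm_num
      _ ≤ m ^ 4 := pow_le_pow_left₀ (by norm_num) hm 4
  have h4 : 57 / 100 * m ^ 2 * (m ^ 2 * rb) ≤ 57 / 100 * (401 / 400) * m ^ 4 := by
    have : 0 < m ^ 4 := by positivity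
    nlinarith
  have h5 : 231 / 400 * (m ^ 4 - 1) * (9999 / 10000) ≤ 231 / 400 * (m ^ 4 - 1) * (1 - eta) := by
    refine mul_le_mul_of_nonneg_left (by linarith) (by linarith)
  linarith

/-- Rotationally symmetric data of the half plane are realised in the unit ball of `E n`. -/
def Red (n k : ℕ) : Prop :=
  ∀ r : (Pt → ℝ) → (Pt → ℝ) → ℝ, Rep k r → ∀ (s0 : Measure ℝ) [IsFiniteMeasure s0],
    (∀ A B : Pt → ℝ, ContDiff ℝ ∞ A → ContDiff ℝ ∞ B →
      r A B = ∫ s, (sin s * A (sin s, cos s) + cos s * B (sin s, cos s)) ∂s0) →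
    ∃ (μ : Measure (E n × (Fin k → E n))) (σ : Measure (E n)) (e : E n), ‖e‖ = 1 ∧
      IsFreeBoundaryStationary k μ Prod.fst (fun p => Submodule.span ℝ (range p.2)) σ id ∧
      ∀ f : ℝ → ℝ, Continuous f → ∫ x, f ⟪e, x⟫ ∂σ = ∫ s, f (cos s) ∂s0

/-- **Lower bound.** In every dimension `k ≥ 160000` there are free boundary stationary data and a
conformal automorphism of the ball which increases the boundary volume at least by the factor
`k ^ (1 / 4) / 120`. -/
theorem lower_of {n k : ℕ} (hk : 160000 ≤ k) (hred : Red n k) :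
    ∃ (μ : Measure (E n × (Fin k → E n)))
      (T : E n × (Fin k → E n) → Submodule ℝ (E n))
      (σ : Measure (E n)) (y : E n),
      IsFreeBoundaryStationary k μ Prod.fst T σ id ∧ 1 < ‖y‖ ∧ 0 < σ.real univ ∧
      (k : ℝ) ^ (1 / 4 : ℝ) / 120 * σ.real univ ≤
        ∫ p, ((‖y‖ ^ 2 - 1) / ‖p - y‖ ^ 2) ^ (k - 1) ∂σ := by
  have hk3 : 3 ≤ k := by omega
  obtain ⟨m, hm⟩ : ∃ m, m = (k : ℝ) ^ (1 / 4 : ℝ) := ⟨_, rfl⟩
  have hk0 : (0 : ℝ) ≤ k := Nat.cast_nonneg k
  have hkm : (k : ℝ) = m ^ 4 := by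
    rw [hm, ← Real.rpow_natCast, ← Real.rpow_mul hk0]
    norm_num
  have hm0 : 0 ≤ m := by rw [hm]; positivity
  have hm20 : 20 ≤ m := by
    by_contra hcon
    push Not at hcon
    have h1 : m ^ 4 < 20 ^ 4 := pow_lt_pow_left₀ hcon hm0 (by norm_num)
    rw [← hkm] at h1
    have h2 : (160000 : ℝ) ≤ k := by exact_mod_cast hk
    norm_num at h1
    linarith
  rw [← hm]
  obtain ⟨hrb1, hrb2⟩ := rb_bounds hm20
  obtain ⟨K₁, hK, hb⟩ := bounds hkm hm20
  have hb' : Bdd k m K₁ := hb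
  obtain ⟨ε, hε, hε1, hε3, hε4, hε2⟩ := exists_eps (k := k) hm20 hk3 hK
  have hrep := scaled hk3 hkm hm20 hε hε1 hK hb'
  obtain ⟨s0, hs0f, hs0⟩ := exists_measure 5 (fun i => arc (rr m ε i) (rr m ε (i + 1)))
    (fun i _ => measurableSet_arc _ _) (fun i => dens k (KK K₁) (RR m ε) (ff k m ε i))
    (fun i hi => integrable_dens hk3 hkm hm20 hε hε1 hK hb' hi)
    (fun i hi s hs => dens_nonneg hk3 hkm hm20 hε hε1 hK hb' hi hs)
  have hAB : ∀ A B : Pt → ℝ, ContDiff ℝ ∞ A → ContDiff ℝ ∞ B →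
      ∑ i ∈ Finset.range 5, ∫ s in arc (rr m ε i) (rr m ε (i + 1)),
        dens k (KK K₁) (RR m ε) (ff k m ε i) s *
          (sin s * A (sin s, cos s) + cos s * B (sin s, cos s)) =
      ∫ s, (sin s * A (sin s, cos s) + cos s * B (sin s, cos s)) ∂s0 := by
    intro A B hA hB
    have hAc := hA.continuous
    have hBc := hB.continuous
    have hg : Continuous (fun s => sin s * A (sin s, cos s) + cos s * B (sin s, cos s)) := by
      have h1 : Continuous (fun s => A (sin s, cos s)) := hAc.comp (by fun_prop)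
      have h2 : Continuous (fun s => B (sin s, cos s)) := hBc.comp (by fun_prop)
      exact (continuous_sin.mul h1).add (continuous_cos.mul h2)
    refine (hs0 _ hg ?_).symm
    obtain ⟨C, hC⟩ := (isCompact_Icc (a := (-π : ℝ)) (b := π)).exists_bound_of_continuousOn
      hg.continuousOn
    refine ⟨C, fun s => ?_⟩
    -- periodicity
    obtain ⟨n, hn⟩ : ∃ n : ℤ, s - n * (2 * π) ∈ Icc (-π) π := by
      refine ⟨round (s / (2 * π)), ?_⟩
      have h3 := abs_sub_round (s / (2 * π))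
      rw [abs_le] at h3
      have h4 : (0 : ℝ) < 2 * π := by positivity
      have h5 : s - round (s / (2 * π)) * (2 * π) =
          (s / (2 * π) - round (s / (2 * π))) * (2 * π) := by field_simp
      rw [h5]
      constructor <;> nlinarith [h3.1, h3.2, pi_pos]
    have h6 := hC _ hn
    rwa [sin_sub_int_mul_two_pi, cos_sub_int_mul_two_pi, Real.norm_eq_abs] at h6
  obtain ⟨μ, σ, e, he, hst, hσ⟩ := hred _ hrep s0 hAB
  have hsq : 0 < √(rb m) := sqrt_pos.2 (by linarith)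
  obtain ⟨t, htd⟩ : ∃ t, t = 1 + ε * √(rb m) := ⟨_, rfl⟩
  have ht : 1 < t := by
    have : 0 < ε * √(rb m) := by positivity
    rw [htd]; linarith
  have := hst.finite_boundary
  have hnorm : ‖t • e‖ = t := by
    rw [norm_smul, he, mul_one, Real.norm_eq_abs, abs_of_pos (by linarith)]
  have hmass : σ.real univ = ∑ i ∈ Finset.range 5, ∫ s in arc (rr m ε i) (rr m ε (i + 1)),
      dens k (KK K₁) (RR m ε) (ff k m ε i) s := by
    have h1 := hσ (fun _ => 1) continuous_const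
    have h2 := hs0 (fun _ => 1) continuous_const ⟨1, fun _ => by simp⟩
    simp only [mul_one] at h2
    rw [integral_const, smul_eq_mul, mul_one] at h1
    rw [h1]
    exact h2
  have hconf : ∫ p, ((‖t • e‖ ^ 2 - 1) / ‖p - t • e‖ ^ 2) ^ (k - 1) ∂σ =
      ∑ i ∈ Finset.range 5, ∫ s in arc (rr m ε i) (rr m ε (i + 1)),
        dens k (KK K₁) (RR m ε) (ff k m ε i) s * cf k t (cos s) := by
    have h1 := hσ (cf k t) (cf_continuous ht)
    have h2 := hs0 (fun s => cf k t (cos s)) ((cf_continuous ht).comp continuous_cos) (cf_bdd ht)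
    rw [← h2, ← h1]
    refine integral_congr_ae ?_
    filter_upwards [hst.boundary_mem] with p hp
    have hp' : ‖p‖ = 1 := hp
    have h3 : ‖p - t • e‖ ^ 2 = 1 + t ^ 2 - 2 * t * ⟪e, p⟫ := by
      rw [norm_sub_sq_real, hp', hnorm, real_inner_smul_right, real_inner_comm]
      ring
    have h4 : ⟪e, p⟫ ≤ 1 := by
      have := real_inner_le_norm e p
      rwa [he, hp', one_mul] at this
    rw [h3, hnorm, cf_eq ht h4]
  have hk4 : (0 : ℝ) < k - 1 := by
    have : (160000 : ℝ) ≤ k := by exact_mod_cast hk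
    linarith
  have heta : eta k ≤ 1 / 10000 := by
    unfold eta
    calc ((1 : ℝ) / 2) ^ (k - 1) ≤ (1 / 2) ^ 14 :=
          pow_le_pow_of_le_one (by norm_num) (by norm_num) (by omega)
      _ ≤ 1 / 10000 := by norm_num
  have h1 := mass_le hk3 hkm hm20 hε hε1 hK hb' hε2
  have h2 := conf_ge hk3 hkm hm20 hε hε1 hK hb' hε3 hε4
  rw [← htd] at h2
  have h3 := final_ineq hm20 (S_le hkm hm20 hk) heta hrb1 hrb2
  have hfin : m / 120 * σ.real univ ≤
      ∫ p, ((‖t • e‖ ^ 2 - 1) / ‖p - t • e‖ ^ 2) ^ (k - 1) ∂σ := by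
    rw [hmass, hconf]
    calc m / 120 * ∑ i ∈ Finset.range 5, ∫ s in arc (rr m ε i) (rr m ε (i + 1)),
          dens k (KK K₁) (RR m ε) (ff k m ε i) s
        ≤ m / 120 * (27 * m ^ 3 * Helper19.QR.S (k - 2) + 1) :=
          mul_le_mul_of_nonneg_left h1 (by positivity)
      _ ≤ 231 / 400 * (m ^ 4 - 1) * (1 - eta k) / (m ^ 2 * rb m) := h3
      _ = 231 / 400 * (k - 1) * (1 - eta k) / (m ^ 2 * rb m) := by rw [hkm]
      _ ≤ _ := h2
  refine ⟨μ, _, σ, t • e, hst, by rw [hnorm]; exact ht, ?_, hfin⟩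
  by_contra hcon
  have h0 : σ.real univ = 0 := le_antisymm (not_lt.1 hcon) measureReal_nonneg
  have hσ0 : σ = 0 := by
    have h5 : σ univ = 0 := (measureReal_eq_zero_iff).1 h0
    exact Measure.measure_univ_eq_zero.1 h5
  have h6 : ∫ p, ((‖t • e‖ ^ 2 - 1) / ‖p - t • e‖ ^ 2) ^ (k - 1) ∂σ = 0 := by
    rw [hσ0]; simp
  have h7 : 0 < 231 / 400 * (k - 1) * (1 - eta k) / (m ^ 2 * rb m) := by
    have h8 : 0 < 1 - eta k := by linarith
    have h9 : 0 < m := by linarith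
    have h10 : 0 < rb m := by linarith
    positivity
  rw [hconf] at h6
  linarith

/-- **Lower bound.** In every dimension `k ≥ 160000` and codimension at least two there are free
boundary stationary data and a conformal automorphism of the ball which increases the boundary
volume at least by the factor `k ^ (1 / 4) / 120`. -/
theorem lower {n k : ℕ} (hk : 160000 ≤ k) (hn : k + 2 ≤ n) :
    ∃ (μ : Measure (E n × (Fin k → E n)))
      (T : E n × (Fin k → E n) → Submodule ℝ (E n))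
      (σ : Measure (E n)) (y : E n),
      IsFreeBoundaryStationary k μ Prod.fst T σ id ∧ 1 < ‖y‖ ∧ 0 < σ.real univ ∧
      (k : ℝ) ^ (1 / 4 : ℝ) / 120 * σ.real univ ≤
        ∫ p, ((‖y‖ ^ 2 - 1) / ‖p - y‖ ^ 2) ^ (k - 1) ∂σ := by
  obtain ⟨Om, _, _, _, _, _, nu, R, T, a, hF⟩ := exists_family (n := n) (k := k) (by omega) hn
  refine lower_of hk fun r hr s0 _ h => ?_
  exact Pool.Agent.Helper99.LB.Gen.reduction_gen (by omega) hF hr s0 h

end Pool.Agent.Helper19.LB2
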