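import Pool.Agent.Helper19.LB.Scaled2
import Pool.Agent.Helper33.QR.Sin

/-!
# The lower bound
-/

open MeasureTheory Set Real
open scoped ContDiff RealInnerProductSpace

namespace Pool.Agent.Helper19.LB2

open Pool.Agent.Helper19.LB

theorem exists_measure (N : ℕ) (S : ℕ → Set ℝ) (hS : ∀ i < N, MeasurableSet (S i))
    (d : ℕ → ℝ → ℝ) (hd : ∀ i < N, IntegrableOn (d i) (S i))
    (h0 : ∀ i < N, ∀ s ∈ S i, 0 ≤ d i s) :
    ∃ s0 : Measure ℝ, IsFiniteMeasure s0 ∧ ∀ g : ℝ → ℝ, Continuous g → (∃ C, ∀ s, |g s| ≤ C) →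
      ∫ s, g s ∂s0 = ∑ i ∈ Finset.range N, ∫ s in S i, d i s * g s := by
  induction N with
  | zero => exact ⟨0, inferInstance, fun g _ _ => by simp⟩
  | succ n ih =>
    obtain ⟨s1, hf1, h1⟩ := ih (fun i hi => hS i (by omega)) (fun i hi => hd i (by omega))
      (fun i hi => h0 i (by omega))
    have hdn := hd n (by omega)
    obtain ⟨s2, hs2⟩ : ∃ s2, s2 = (volume.restrict (S n)).withDensity
      (fun s => ENNReal.ofReal (d n s)) := ⟨_, rfl⟩
    have hfin : IsFiniteMeasure s2 := by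
      rw [hs2]
      exact isFiniteMeasure_withDensity_ofReal hdn.2
    refine ⟨s1 + s2, inferInstance, fun g hg hC => ?_⟩
    obtain ⟨C, hC⟩ := hC
    have ig : ∀ (μ : Measure ℝ) [IsFiniteMeasure μ], Integrable g μ := by
      intro μ _
      refine Integrable.of_bound hg.aestronglyMeasurable C ?_
      exact Filter.Eventually.of_forall fun s => by rw [Real.norm_eq_abs]; exact hC s
    rw [integral_add_measure (ig s1) (ig s2), h1 g hg ⟨C, hC⟩, Finset.sum_range_succ, hs2,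
      integral_withDensity_eq_integral_toReal_smul₀ (by
        exact (hdn.aestronglyMeasurable.aemeasurable).ennreal_ofReal)
        (Filter.Eventually.of_forall fun s => ENNReal.ofReal_lt_top)]
    congr 1
    refine setIntegral_congr_fun (hS n (by omega)) fun s hs => ?_
    show (ENNReal.ofReal (d n s)).toReal • g s = d n s * g s
    rw [ENNReal.toReal_ofReal (h0 n (by omega) s hs), smul_eq_mul]

/-- The conformal factor to the power `k - 1`, as a function of the cosine of the angle. -/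
noncomputable def cf (k : ℕ) (t c : ℝ) : ℝ :=
  ((t ^ 2 - 1) / max ((t - 1) ^ 2) (1 + t ^ 2 - 2 * t * c)) ^ (k - 1)

theorem cf_continuous {k : ℕ} {t : ℝ} (ht : 1 < t) : Continuous (cf k t) := by
  unfold cf
  refine Continuous.pow (Continuous.div (by fun_prop) (by fun_prop) fun c => ?_) _
  have h1 : 0 < (t - 1) ^ 2 := by
    have : 0 < t - 1 := by linarith
    positivity
  exact (lt_of_lt_of_le h1 (le_max_left _ _)).ne'

theorem cf_eq {k : ℕ} {t c : ℝ} (ht : 1 < t) (hc : c ≤ 1) :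
    cf k t c = ((t ^ 2 - 1) / (1 + t ^ 2 - 2 * t * c)) ^ (k - 1) := by
  unfold cf
  rw [max_eq_right]
  nlinarith

theorem cf_nonneg {k : ℕ} {t : ℝ} (ht : 1 < t) (c : ℝ) : 0 ≤ cf k t c := by
  unfold cf
  have h1 : 0 ≤ t ^ 2 - 1 := by nlinarith
  have h2 : 0 ≤ max ((t - 1) ^ 2) (1 + t ^ 2 - 2 * t * c) := le_max_of_le_left (sq_nonneg _)
  exact pow_nonneg (div_nonneg h1 h2) _

theorem cf_bdd {k : ℕ} {t : ℝ} (ht : 1 < t) : ∃ C, ∀ s : ℝ, |cf k t (cos s)| ≤ C := by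
  obtain ⟨C, hC⟩ := (isCompact_Icc (a := (-1 : ℝ)) (b := 1)).exists_bound_of_continuousOn
    (cf_continuous (k := k) ht).continuousOn
  exact ⟨C, fun s => hC (cos s) ⟨neg_one_le_cos s, cos_le_one s⟩⟩

section

variable {k : ℕ} {m ε : ℝ}

theorem integrable_dens (hk : 3 ≤ k) (hkm : (k : ℝ) = m ^ 4) (hm : 20 ≤ m) (hε : 0 < ε)
    (hε1 : ε * (201 / 100 * rb m) ≤ 1 / 2) {K₁ : ℝ} (hK : 0 < K₁) (hb : Bdd k m K₁) {i : ℕ} (hi : i < 5) :
    IntegrableOn (dens k (KK K₁) (RR m ε) (ff k m ε i)) (arc (rr m ε i) (rr m ε (i + 1))) := by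
  obtain ⟨hrb1, hrb2⟩ := rb_bounds hm
  have hm0 : 0 < m := by linarith
  have hR : 0 < RR m ε := by unfold RR; positivity
  have hfin : volume (arc (rr m ε i) (rr m ε (i + 1))) < ⊤ :=
    lt_of_le_of_lt (measure_mono (t := Ioo 0 π) fun s hs => ⟨hs.1, hs.2.1⟩)
      (by simp)
  have hf := fld_ff hkm hm hε hi
  have m1 := (integrableOn_arc hf.cont_c).aestronglyMeasurable
  have m2 := (integrableOn_arc hf.cont_w).aestronglyMeasurable
  have ms : ∀ {g : ℝ → ℝ}, Continuous g →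
      AEStronglyMeasurable g (volume.restrict (arc (rr m ε i) (rr m ε (i + 1)))) :=
    fun hg => hg.aestronglyMeasurable
  have hfm : IsFiniteMeasure (volume.restrict (arc (rr m ε i) (rr m ε (i + 1)))) :=
    ⟨by rwa [Measure.restrict_apply_univ]⟩
  refine Integrable.of_bound ?_ (27 * m ^ 3 + (177 + 144 * k) * K₁ * RR m ε) ?_
  · have a1 : Continuous (fun s => sin s ^ (k - 2)) := by fun_prop
    have a2 : Continuous (fun s => sin s ^ k) := by fun_prop
    have a3 : Continuous (fun s => sin s ^ (k - 1)) := by fun_prop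
    have a4 : Continuous (fun s => (sin s + RR m ε) ^ 2) := by fun_prop
    have a5 : Continuous (fun s => sin s + RR m ε) := by fun_prop
    have a6 : Continuous (fun s => 4 * KK K₁ * RR m ε * sin s) := by fun_prop
    have a7 : Continuous (fun _ : ℝ => 4 * KK K₁ * RR m ε ^ 2) := continuous_const
    have a8 : Continuous (fun _ : ℝ => (k : ℝ)) := continuous_const
    exact (((m1.mul (ms a1)).sub ((m2.mul (ms a2)).div₀ (ms continuous_cos))).add
      (((ms a7).div₀ (ms a4)).mul (ms a2))).add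
      (((ms a8).mul ((ms a6).div₀ (ms a5))).mul (ms a3))
  · rw [ae_restrict_iff' (measurableSet_arc _ _)]
    refine Filter.Eventually.of_forall fun s hs => ?_
    have hsin : 0 < sin s := sin_pos_of_pos_of_lt_pi hs.1 hs.2.1
    have h1 := le_dens hk hm hε hε1 hK hb hi hs
    have h2 := dens_le hk hm hε hε1 hK hb hi hs
    have h3 := c_nonneg hkm hm hε hi ⟨hs.2.2.1, hs.2.2.2⟩ hsin.le (1 - cos s)
    have h4 : 0 ≤ (ff k m ε i).c (sin s) (1 - cos s) * sin s ^ (k - 2) :=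
      mul_nonneg h3 (by positivity)
    have h5 : sin s ^ (k - 2) ≤ 1 := pow_le_one₀ hsin.le (sin_le_one s)
    have h6 : 27 * m ^ 3 * sin s ^ (k - 2) ≤ 27 * m ^ 3 * 1 :=
      mul_le_mul_of_nonneg_left h5 (by positivity)
    rw [Real.norm_eq_abs, abs_of_nonneg (h4.trans h1)]
    linarith

theorem dens_nonneg (hk : 3 ≤ k) (hkm : (k : ℝ) = m ^ 4) (hm : 20 ≤ m) (hε : 0 < ε)
    (hε1 : ε * (201 / 100 * rb m) ≤ 1 / 2) {K₁ : ℝ} (hK : 0 < K₁) (hb : Bdd k m K₁) {i : ℕ} (hi : i < 5)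
    {s : ℝ} (hs : s ∈ arc (rr m ε i) (rr m ε (i + 1))) :
    0 ≤ dens k (KK K₁) (RR m ε) (ff k m ε i) s := by
  have hsin : 0 < sin s := sin_pos_of_pos_of_lt_pi hs.1 hs.2.1
  have h3 := c_nonneg hkm hm hε hi ⟨hs.2.2.1, hs.2.2.2⟩ hsin.le (1 - cos s)
  exact (mul_nonneg h3 (by positivity)).trans (le_dens hk hm hε hε1 hK hb hi hs)

/-- The total mass. -/
theorem mass_le (hk : 3 ≤ k) (hkm : (k : ℝ) = m ^ 4) (hm : 20 ≤ m) (hε : 0 < ε)
    (hε1 : ε * (201 / 100 * rb m) ≤ 1 / 2) {K₁ : ℝ} (hK : 0 < K₁) (hb : Bdd k m K₁)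
    (hε2 : (177 + 144 * k) * K₁ * RR m ε * π ≤ 1) :
    ∑ i ∈ Finset.range 5, ∫ s in arc (rr m ε i) (rr m ε (i + 1)),
      dens k (KK K₁) (RR m ε) (ff k m ε i) s ≤ 27 * m ^ 3 * Helper19.QR.S (k - 2) + 1 := by
  have hg : IntegrableOn (fun s => 27 * m ^ 3 * sin s ^ (k - 2) +
      (177 + 144 * k) * K₁ * RR m ε) (Ioo 0 π) :=
    ((Continuous.continuousOn (by fun_prop)).integrableOn_compact
      isCompact_Icc).mono_set Ioo_subset_Icc_self
  have h1 : ∑ i ∈ Finset.range 5, ∫ s in arc (rr m ε i) (rr m ε (i + 1)),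
      dens k (KK K₁) (RR m ε) (ff k m ε i) s ≤
      ∑ i ∈ Finset.range 5, ∫ s in arc (rr m ε i) (rr m ε (i + 1)),
        (27 * m ^ 3 * sin s ^ (k - 2) + (177 + 144 * k) * K₁ * RR m ε) := by
    refine Finset.sum_le_sum fun i hi => ?_
    rw [Finset.mem_range] at hi
    refine setIntegral_mono_on (integrable_dens hk hkm hm hε hε1 hK hb hi)
      (hg.mono_set fun s hs => ⟨hs.1, hs.2.1⟩) (measurableSet_arc _ _) fun s hs => ?_
    exact dens_le hk hm hε hε1 hK hb hi hs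
  refine h1.trans ?_
  rw [← integral_arc_sum (r := rr m ε) 5 (fun i hi => rr_mono hm hε hε1 hi) hg, rr_zero, rr_five,
    integral_arc_univ, ← integral_Ioc_eq_integral_Ioo,
    ← intervalIntegral.integral_of_le pi_pos.le,
    intervalIntegral.integral_add (Continuous.intervalIntegrable (by fun_prop) _ _)
      (Continuous.intervalIntegrable (by fun_prop) _ _),
    intervalIntegral.integral_const_mul, intervalIntegral.integral_const]
  have h2 : (π - 0) • ((177 + 144 * k) * K₁ * RR m ε) ≤ 1 := by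
    rw [smul_eq_mul, sub_zero, mul_comm]
    exact hε2
  have h3 : ∫ x in (0 : ℝ)..π, sin x ^ (k - 2) = Helper19.QR.S (k - 2) := rfl
  rw [h3]
  linarith

/-- The vertical stress in the window. -/
theorem c_window (hkm : (k : ℝ) = m ^ 4) (hm : 20 ≤ m) (hε : 0 < ε) (hε3 : ε ≤ 1 / (8 * m ^ 3))
    {s : ℝ} (hs0 : 0 < s) (hs1 : s < π / 2) (h1 : ε < sin s) (h2 : sin s < ε * rb m) :
    99 / 100 * ((k - 1) * ((1 - eta k) *
      (2 * m ^ 2 * (sin s / ε - 1) - m ^ 4 * (sin s / ε - 1) ^ 2))) ≤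
      (ff k m ε 1).c (sin s) (1 - cos s) := by
  obtain ⟨hrb1, hrb2⟩ := rb_bounds hm
  have hm0 : 0 < m := by linarith
  have heta : 0 ≤ 1 - eta k := by
    unfold eta
    have : ((1 : ℝ) / 2) ^ (k - 1) ≤ 1 := pow_le_one₀ (by norm_num) (by norm_num)
    linarith
  have hk1 : (0 : ℝ) ≤ k - 1 := by
    rw [hkm]
    have : (1 : ℝ) ≤ m ^ 4 := one_le_pow₀ (by linarith)
    linarith
  have hρ : 0 ≤ sin s / ε - 1 := by
    rw [sub_nonneg, le_div_iff₀ hε]; linarith
  have hρ0 : 0 ≤ sin s / ε := by linarith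
  have hρ1 : m ^ 2 * (sin s / ε - 1) ≤ 1 := by
    have h3 : sin s / ε ≤ rb m := by
      rw [div_le_iff₀ hε]; linarith
    have h4 : sin s / ε - 1 ≤ 1 / m ^ 2 := by
      unfold rb at h3
      linarith
    calc m ^ 2 * (sin s / ε - 1) ≤ m ^ 2 * (1 / m ^ 2) :=
          mul_le_mul_of_nonneg_left h4 (by positivity)
      _ = 1 := by field_simp
  have hf0 : 0 ≤ 2 * m ^ 2 * (sin s / ε - 1) - m ^ 4 * (sin s / ε - 1) ^ 2 := by
    have e : 2 * m ^ 2 * (sin s / ε - 1) - m ^ 4 * (sin s / ε - 1) ^ 2 =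
        (m ^ 2 * (sin s / ε - 1)) * (2 - m ^ 2 * (sin s / ε - 1)) := by ring
    rw [e]
    exact mul_nonneg (by positivity) (by linarith)
  have hf1 : 0 ≤ 2 * m ^ 2 - 2 * m ^ 4 * (sin s / ε - 1) := by
    have e : 2 * m ^ 2 - 2 * m ^ 4 * (sin s / ε - 1) =
        2 * m ^ 2 * (1 - m ^ 2 * (sin s / ε - 1)) := by ring
    rw [e]
    exact mul_nonneg (by positivity) (by linarith)
  show _ ≤ m ^ 3 + ((k - 1) * ((1 - eta k) *
      (2 * m ^ 2 * (sin s / ε - 1) - m ^ 4 * (sin s / ε - 1) ^ 2)) +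
    sin s / ε * ((1 - eta k) * (2 * m ^ 2 - 2 * m ^ 4 * (sin s / ε - 1)))) *
      exp (-(m ^ 6 / 2) * ((1 - cos s) / ε) ^ 2)
  obtain ⟨F, hF⟩ : ∃ F, F = 2 * m ^ 2 * (sin s / ε - 1) - m ^ 4 * (sin s / ε - 1) ^ 2 := ⟨_, rfl⟩
  obtain ⟨F', hF'⟩ : ∃ F', F' = 2 * m ^ 2 - 2 * m ^ 4 * (sin s / ε - 1) := ⟨_, rfl⟩
  rw [← hF] at hf0 ⊢
  rw [← hF'] at hf1 ⊢
  have hx : m ^ 6 / 2 * ((1 - cos s) / ε) ^ 2 ≤ 1 / 100 := by
    have h3 := one_sub_cos_le hs0.le hs1.le
    have h4 : 0 ≤ (1 - cos s) / ε := div_nonneg (by linarith [cos_le_one s]) hε.le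
    have h5 : (1 - cos s) / ε ≤ 11 / 10 * ε := by
      rw [div_le_iff₀ hε]
      have h6 : sin s ^ 2 ≤ (ε * (401 / 400)) ^ 2 := by
        refine pow_le_pow_left₀ (by linarith) (h2.le.trans ?_) 2
        exact mul_le_mul_of_nonneg_left hrb2 hε.le
      nlinarith
    have h6 : (1 - cos s) / ε ≤ 11 / 10 * (1 / (8 * m ^ 3)) :=
      h5.trans (mul_le_mul_of_nonneg_left hε3 (by norm_num))
    have h7 : ((1 - cos s) / ε) ^ 2 ≤ (11 / 10 * (1 / (8 * m ^ 3))) ^ 2 :=
      pow_le_pow_left₀ h4 h6 2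
    calc m ^ 6 / 2 * ((1 - cos s) / ε) ^ 2 ≤ m ^ 6 / 2 * (11 / 10 * (1 / (8 * m ^ 3))) ^ 2 :=
          mul_le_mul_of_nonneg_left h7 (by positivity)
      _ = 121 / 12800 := by field_simp; norm_num
      _ ≤ 1 / 100 := by norm_num
  have he : 99 / 100 ≤ exp (-(m ^ 6 / 2) * ((1 - cos s) / ε) ^ 2) := by
    have := add_one_le_exp (-(m ^ 6 / 2) * ((1 - cos s) / ε) ^ 2)
    linarith
  have hX : 0 ≤ (k - 1) * ((1 - eta k) * F) := by positivity
  have hY : 0 ≤ sin s / ε * ((1 - eta k) * F') := by positivity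
  have h8 : 99 / 100 * ((k - 1) * ((1 - eta k) * F) +
      sin s / ε * ((1 - eta k) * F')) ≤
      ((k - 1) * ((1 - eta k) * F) +
    sin s / ε * ((1 - eta k) * F')) * exp (-(m ^ 6 / 2) * ((1 - cos s) / ε) ^ 2) := by
    rw [mul_comm (99 / 100 : ℝ)]
    exact mul_le_mul_of_nonneg_left he (by positivity)
  have h9 : 0 ≤ m ^ 3 := by positivity
  linarith

/-- The conformal mass. -/
theorem conf_ge (hk : 3 ≤ k) (hkm : (k : ℝ) = m ^ 4) (hm : 20 ≤ m) (hε : 0 < ε)
    (hε1 : ε * (201 / 100 * rb m) ≤ 1 / 2) {K₁ : ℝ} (hK : 0 < K₁) (hb : Bdd k m K₁)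
    (hε3 : ε ≤ 1 / (8 * m ^ 3)) (hε4 : ε ≤ 1 / (200 * k)) :
    231 / 400 * (k - 1) * (1 - eta k) / (m ^ 2 * rb m) ≤
      ∑ i ∈ Finset.range 5, ∫ s in arc (rr m ε i) (rr m ε (i + 1)),
        dens k (KK K₁) (RR m ε) (ff k m ε i) s * cf k (1 + ε * √(rb m)) (cos s) := by
  obtain ⟨hrb1, hrb2⟩ := rb_bounds hm
  have hm0 : 0 < m := by linarith
  have hsq : 0 < √(rb m) := sqrt_pos.2 (by linarith)
  have ht : 1 < 1 + ε * √(rb m) := by
    have : 0 < ε * √(rb m) := by positivity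
    linarith
  have heta : 0 ≤ 1 - eta k := by
    unfold eta
    have : ((1 : ℝ) / 2) ^ (k - 1) ≤ 1 := pow_le_one₀ (by norm_num) (by norm_num)
    linarith
  have hk1 : (0 : ℝ) ≤ k - 1 := by
    rw [hkm]
    have : (1 : ℝ) ≤ m ^ 4 := one_le_pow₀ (by linarith)
    linarith
  obtain ⟨Cb, hCb⟩ := cf_bdd (k := k) ht
  have hcfc : Continuous (fun s => cf k (1 + ε * √(rb m)) (cos s)) :=
    (cf_continuous ht).comp continuous_cos
  have hint : ∀ i < 5, IntegrableOn (fun s => dens k (KK K₁) (RR m ε) (ff k m ε i) s *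
      cf k (1 + ε * √(rb m)) (cos s)) (arc (rr m ε i) (rr m ε (i + 1))) := by
    intro i hi
    refine (integrable_dens hk hkm hm hε hε1 hK hb hi).mul_bdd (c := Cb)
      hcfc.aestronglyMeasurable ?_
    exact Filter.Eventually.of_forall fun s => by rw [Real.norm_eq_abs]; exact hCb s
  have hnn : ∀ i < 5, ∀ s ∈ arc (rr m ε i) (rr m ε (i + 1)),
      0 ≤ dens k (KK K₁) (RR m ε) (ff k m ε i) s * cf k (1 + ε * √(rb m)) (cos s) :=
    fun i hi s hs => mul_nonneg (dens_nonneg hk hkm hm hε hε1 hK hb hi hs) (cf_nonneg ht _)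
  have h1 : ∫ s in arc (rr m ε 1) (rr m ε 2), dens k (KK K₁) (RR m ε) (ff k m ε 1) s *
      cf k (1 + ε * √(rb m)) (cos s) ≤
      ∑ i ∈ Finset.range 5, ∫ s in arc (rr m ε i) (rr m ε (i + 1)),
        dens k (KK K₁) (RR m ε) (ff k m ε i) s * cf k (1 + ε * √(rb m)) (cos s) :=
    Finset.single_le_sum (f := fun i => ∫ s in arc (rr m ε i) (rr m ε (i + 1)),
        dens k (KK K₁) (RR m ε) (ff k m ε i) s * cf k (1 + ε * √(rb m)) (cos s))
      (fun i hi => setIntegral_nonneg (measurableSet_arc _ _) (hnn i (Finset.mem_range.1 hi)))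
      (Finset.mem_range.2 (by norm_num : 1 < 5))
  refine le_trans ?_ h1
  have hεlt : ε < 1 := by nlinarith
  have hεrb : ε * rb m < 1 := by nlinarith
  have hr1 : rr m ε 1 = ε := by rw [rr_of_le (by norm_num)]; simp [bb]
  have hr2 : rr m ε 2 = ε * rb m := by rw [rr_of_le (by norm_num)]; simp [bb]
  rw [hr1, hr2]
  obtain ⟨a, ha⟩ : ∃ a, a = arcsin ε := ⟨_, rfl⟩
  obtain ⟨b, hb'⟩ : ∃ b, b = arcsin (ε * rb m) := ⟨_, rfl⟩
  have hsa : sin a = ε := by rw [ha]; exact sin_arcsin (by linarith) hεlt.le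
  have hsb : sin b = ε * rb m := by
    rw [hb']; exact sin_arcsin (by nlinarith) hεrb.le
  have ha0 : 0 < a := by rw [ha]; exact arcsin_pos.2 hε
  have hb2 : b < π / 2 := by rw [hb']; exact arcsin_lt_pi_div_two.2 hεrb
  have hab : a ≤ b := by
    rw [ha, hb']
    exact monotone_arcsin (by nlinarith)
  have hsub : Ioo a b ⊆ arc ε (ε * rb m) := by
    intro s hs
    have hs0 : 0 < s := ha0.trans hs.1
    have hs1 : s < π / 2 := hs.2.trans hb2
    refine ⟨hs0, by linarith [pi_pos], ?_, ?_⟩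
    · rw [← hsa]
      exact sin_lt_sin_of_lt_of_le_pi_div_two (by linarith [pi_pos]) hs1.le hs.1
    · rw [← hsb]
      exact sin_lt_sin_of_lt_of_le_pi_div_two (by linarith) hb2.le hs.2
  have hint1 : IntegrableOn (fun s => dens k (KK K₁) (RR m ε) (ff k m ε 1) s *
      cf k (1 + ε * √(rb m)) (cos s)) (arc ε (ε * rb m)) := by
    have := hint 1 (by norm_num)
    rwa [hr1, show (1 + 1 : ℕ) = 2 from rfl, hr2] at this
  have hnn1 : ∀ s ∈ arc ε (ε * rb m), 0 ≤ dens k (KK K₁) (RR m ε) (ff k m ε 1) s *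
      cf k (1 + ε * √(rb m)) (cos s) := by
    have := hnn 1 (by norm_num)
    rwa [hr1, show (1 + 1 : ℕ) = 2 from rfl, hr2] at this
  have h2 : ∫ s in Ioo a b, dens k (KK K₁) (RR m ε) (ff k m ε 1) s *
      cf k (1 + ε * √(rb m)) (cos s) ≤ ∫ s in arc ε (ε * rb m),
      dens k (KK K₁) (RR m ε) (ff k m ε 1) s * cf k (1 + ε * √(rb m)) (cos s) := by
    refine setIntegral_mono_set hint1 ?_ (Filter.Eventually.of_forall hsub)
    rw [Filter.EventuallyLE, ae_restrict_iff' (measurableSet_arc _ _)]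
    exact Filter.Eventually.of_forall hnn1
  refine le_trans ?_ h2
  obtain ⟨κ, hκ⟩ : ∃ κ, κ = 693 / 800 * (k - 1) * (1 - eta k) := ⟨_, rfl⟩
  have hκ0 : 0 ≤ κ := by rw [hκ]; positivity
  have h3 : ∫ s in Ioo a b, κ / (ε * rb m) * ((2 * m ^ 2 * (sin s / ε - 1) -
      m ^ 4 * (sin s / ε - 1) ^ 2) * cos s) ≤
      ∫ s in Ioo a b, dens k (KK K₁) (RR m ε) (ff k m ε 1) s *
        cf k (1 + ε * √(rb m)) (cos s) := by
    refine setIntegral_mono_on ?_ (hint1.mono_set hsub) measurableSet_Ioo fun s hs => ?_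
    · exact ((Continuous.continuousOn (by fun_prop)).integrableOn_compact
        isCompact_Icc).mono_set Ioo_subset_Icc_self
    · have hsa := hsub hs
      obtain ⟨hs0, hs1, hs2, hs3⟩ := hsa
      have hs4 : s < π / 2 := hs.2.trans hb2
      have hsin : 0 < sin s := by linarith
      have hc0 : 0 ≤ cos s := cos_nonneg_of_mem_Icc ⟨by linarith [pi_pos], hs4.le⟩
      have hc1 : cos s ≤ 1 := cos_le_one s
      have hρ : 0 ≤ sin s / ε - 1 := by
        rw [sub_nonneg, le_div_iff₀ hε]; linarith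
      have hρ1 : m ^ 2 * (sin s / ε - 1) ≤ 1 := by
        have h3 : sin s / ε ≤ rb m := by
          rw [div_le_iff₀ hε]; linarith
        have h4 : sin s / ε - 1 ≤ 1 / m ^ 2 := by
          unfold rb at h3
          linarith
        calc m ^ 2 * (sin s / ε - 1) ≤ m ^ 2 * (1 / m ^ 2) :=
              mul_le_mul_of_nonneg_left h4 (by positivity)
          _ = 1 := by field_simp
      have hf0 : 0 ≤ 2 * m ^ 2 * (sin s / ε - 1) - m ^ 4 * (sin s / ε - 1) ^ 2 := by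
        have e : 2 * m ^ 2 * (sin s / ε - 1) - m ^ 4 * (sin s / ε - 1) ^ 2 =
            (m ^ 2 * (sin s / ε - 1)) * (2 - m ^ 2 * (sin s / ε - 1)) := by ring
        rw [e]
        exact mul_nonneg (by positivity) (by linarith)
      have e1 := c_window hkm hm hε hε3 hs0 hs4 hs2 hs3
      obtain ⟨F, hF⟩ : ∃ F, F = 2 * m ^ 2 * (sin s / ε - 1) - m ^ 4 * (sin s / ε - 1) ^ 2 :=
        ⟨_, rfl⟩
      rw [← hF] at e1 hf0 ⊢
      have hmem : s ∈ arc (rr m ε 1) (rr m ε (1 + 1)) := by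
        rw [hr1, show (1 + 1 : ℕ) = 2 from rfl, hr2]; exact hsub hs
      have e2 := le_dens hk hm hε hε1 hK hb (i := 1) (by norm_num) hmem
      have e3 := factor_ge hkm hm hε hε4 ⟨hs0, hs4⟩ hs2 hs3
      rw [mul_pow, ← cf_eq ht hc1] at e3
      have e4 : 0 ≤ cf k (1 + ε * √(rb m)) (cos s) := cf_nonneg ht _
      have e5 : sin s ^ (k - 1) = sin s ^ (k - 2) * sin s := by
        rw [← pow_succ]; congr 1; omega
      have e6 : 7 / (8 * sin s) ≤ sin s ^ (k - 2) * cf k (1 + ε * √(rb m)) (cos s) := by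
        rw [div_le_iff₀ (by positivity)]
        rw [e5] at e3
        nlinarith
      have e7 : κ * F / sin s ≤ dens k (KK K₁) (RR m ε) (ff k m ε 1) s *
          cf k (1 + ε * √(rb m)) (cos s) := by
        calc κ * F / sin s
            = 99 / 100 * ((k - 1) * ((1 - eta k) * F)) *
                (7 / (8 * sin s)) := by rw [hκ]; field_simp; ring
          _ ≤ (ff k m ε 1).c (sin s) (1 - cos s) *
                (sin s ^ (k - 2) * cf k (1 + ε * √(rb m)) (cos s)) := by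
              refine mul_le_mul e1 e6 (by positivity) (le_trans (by positivity) e1)
          _ = ((ff k m ε 1).c (sin s) (1 - cos s) * sin s ^ (k - 2)) *
                cf k (1 + ε * √(rb m)) (cos s) := by ring
          _ ≤ _ := mul_le_mul_of_nonneg_right e2 e4
      refine le_trans ?_ e7
      calc κ / (ε * rb m) * (F * cos s)
          ≤ κ / (ε * rb m) * (F * 1) := by
            refine mul_le_mul_of_nonneg_left (mul_le_mul_of_nonneg_left hc1 hf0) (by positivity)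
        _ = κ * F / (ε * rb m) := by ring
        _ ≤ κ * F / sin s :=
            div_le_div_of_nonneg_left (by positivity) hsin hs3.le
  refine le_trans (le_of_eq ?_) h3
  rw [← integral_Ioc_eq_integral_Ioo, ← intervalIntegral.integral_of_le hab,
    intervalIntegral.integral_const_mul]
  have hd : ∀ s ∈ uIcc a b, HasDerivAt (fun s => ε * (m ^ 2 * (sin s / ε - 1) ^ 2 -
      m ^ 4 / 3 * (sin s / ε - 1) ^ 3))
      ((2 * m ^ 2 * (sin s / ε - 1) - m ^ 4 * (sin s / ε - 1) ^ 2) * cos s) s := by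
    intro s _
    have h4 := ((hasDerivAt_sin s).div_const ε).sub_const 1
    have h5 := ((((h4.pow 2).const_mul (m ^ 2)).sub ((h4.pow 3).const_mul (m ^ 4 / 3))).const_mul ε)
    refine h5.congr_deriv ?_
    obtain ⟨u, hu⟩ : ∃ u, u = sin s / ε - 1 := ⟨_, rfl⟩
    rw [← hu]
    have e1 : cos s / ε * ε = cos s := div_mul_cancel₀ _ hε.ne'
    push_cast
    simp only [pow_one]
    linear_combination (m ^ 2 * 2 * u - m ^ 4 * u ^ 2) * e1
  rw [intervalIntegral.integral_eq_sub_of_hasDerivAt hd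
    (Continuous.intervalIntegrable (by fun_prop) _ _), hsa, hsb, hκ]
  have hrbm : ε * rb m / ε - 1 = 1 / m ^ 2 := by
    rw [mul_div_cancel_left₀ _ hε.ne']
    unfold rb; ring
  have hone : ε / ε - 1 = 0 := by rw [div_self hε.ne', sub_self]
  rw [hrbm, hone]
  have hrbne : rb m ≠ 0 := by linarith
  field_simp
  ring

end

end Pool.Agent.Helper19.LB2
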