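import Pool.Agent.Helper19.LB.Asm
import Pool.Agent.Helper53.LB.F
import Pool.Agent.Helper41.LB.N1b
import Pool.Agent.Helper23.LB.Jumps2
import Pool.Agent.Helper14.LB.Bounds2
import Pool.Agent.Helper13.LB.Factor2

/-!
# The scaled example
-/

open MeasureTheory Set Real
open scoped ContDiff

namespace Pool.Agent.Helper19.LB2

open Pool.Agent.Helper19.LB

/-- The radii after scaling. -/
noncomputable def rr (m ε : ℝ) (i : ℕ) : ℝ := if i ≤ 4 then ε * bb m i else 1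

/-- The fields after scaling. -/
noncomputable def ff (k : ℕ) (m ε : ℝ) (i : ℕ) : Fld := (Zf k m i).scale ε

theorem rb_bounds {m : ℝ} (hm : 20 ≤ m) : 1 < rb m ∧ rb m ≤ 401 / 400 := by
  unfold rb
  have h1 : 0 < 1 / m ^ 2 := by positivity
  have h2 : 1 / m ^ 2 ≤ 1 / 400 := by
    rw [div_le_div_iff₀ (by positivity) (by norm_num)]
    nlinarith
  constructor <;> linarith

theorem bb_mono {m : ℝ} (hm : 20 ≤ m) {i : ℕ} (hi : i < 4) : bb m i < bb m (i + 1) := by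
  obtain ⟨h1, h2⟩ := rb_bounds hm
  interval_cases i <;> simp only [bb] <;> linarith

theorem bb_nonneg {m : ℝ} (hm : 20 ≤ m) (i : ℕ) : 0 ≤ bb m i := by
  obtain ⟨h1, h2⟩ := rb_bounds hm
  rcases i with _ | _ | _ | _ | i <;> simp only [bb] <;> linarith

theorem bb_le {m : ℝ} (hm : 20 ≤ m) (i : ℕ) : bb m i ≤ 201 / 100 * rb m := by
  obtain ⟨h1, h2⟩ := rb_bounds hm
  rcases i with _ | _ | _ | _ | i <;> simp only [bb] <;> linarith

section

variable {k : ℕ} {m ε : ℝ}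

theorem rr_zero : rr m ε 0 = 0 := by simp [rr, bb]

theorem rr_five : rr m ε 5 = 1 := by simp [rr]

theorem rr_of_le {i : ℕ} (hi : i ≤ 4) : rr m ε i = ε * bb m i := by simp [rr, hi]

theorem rr_mono (hm : 20 ≤ m) (hε : 0 < ε) (hε1 : ε * (201 / 100 * rb m) ≤ 1 / 2) {i : ℕ} (hi : i < 5) :
    rr m ε i < rr m ε (i + 1) := by
  rcases Nat.lt_or_ge i 4 with h | h
  · rw [rr_of_le h.le, rr_of_le (by omega)]
    exact mul_lt_mul_of_pos_left (bb_mono hm h) hε
  · have : i = 4 := by omega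
    subst this
    rw [rr_of_le le_rfl, rr_five]
    simp only [bb]
    linarith

theorem fld_ff (hkm : (k : ℝ) = m ^ 4) (hm : 20 ≤ m) (hε : 0 < ε) {i : ℕ} (hi : i < 5) :
    IsFld k (rr m ε i) (rr m ε (i + 1)) (ff k m ε i) := by
  rcases Nat.lt_or_ge i 4 with h | h
  · rw [rr_of_le h.le, rr_of_le (by omega)]
    refine IsFld.scale hε ?_
    interval_cases i
    · exact isFld_flat k _ _ _
    · exact fld1 hkm hm
    · exact fld2 hkm hm
    · exact fld3 hkm hm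
  · have : i = 4 := by omega
    subst this
    rw [rr_of_le le_rfl, rr_five]
    have h1 := (isFld_flat k (bb m 4) (1 / ε) (27 * m ^ 3)).scale hε
    rw [mul_one_div_cancel hε.ne'] at h1
    exact h1

theorem adm_ff (hkm : (k : ℝ) = m ^ 4) (hm : 20 ≤ m) (hε : 0 < ε) {i : ℕ} (hi : i < 5) {ρ : ℝ}
    (hρ : ρ ∈ Ioo (rr m ε i) (rr m ε (i + 1))) (h : ℝ) : Adm k 0 (ff k m ε i) ρ h := by
  have hm0 : 0 < m := by linarith
  refine Adm.scale hε ?_
  rcases Nat.lt_or_ge i 4 with h' | h'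
  · rw [rr_of_le h'.le, rr_of_le (by omega)] at hρ
    have hρ' : ρ / ε ∈ Ioo (bb m i) (bb m (i + 1)) := by
      constructor
      · rw [lt_div_iff₀ hε]; linarith [hρ.1]
      · rw [div_lt_iff₀ hε]; linarith [hρ.2]
    interval_cases i
    · exact (adm_flat k _ _ _).mono (by simp; positivity)
    · exact adm1 hkm hm hρ' _
    · exact adm2 hkm hm hρ' _
    · exact adm3 hkm hm hρ' _
  · have : i = 4 := by omega
    subst this
    exact (adm_flat k _ _ _).mono (by simp; positivity)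

theorem jump_w_ff (hkm : (k : ℝ) = m ^ 4) (hm : 20 ≤ m) (hε : 0 < ε) {i : ℕ} (hi : i + 1 < 5)
    (h : ℝ) : (ff k m ε i).w (rr m ε (i + 1)) h = (ff k m ε (i + 1)).w (rr m ε (i + 1)) h := by
  rw [rr_of_le (by omega)]
  show (Zf k m i).w (ε * bb m (i + 1) / ε) (h / ε) / ε =
    (Zf k m (i + 1)).w (ε * bb m (i + 1) / ε) (h / ε) / ε
  rw [mul_div_cancel_left₀ _ hε.ne', jump_w hkm hm (by omega)]

theorem jump_P_ff (hkm : (k : ℝ) = m ^ 4) (hm : 20 ≤ m) (hε : 0 < ε) {i : ℕ} (hi : i + 1 < 5)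
    (h : ℝ) : (ff k m ε i).c (rr m ε (i + 1)) h / rr m ε (i + 1) +
        (ff k m ε i).P (rr m ε (i + 1)) h ≤
      (ff k m ε (i + 1)).c (rr m ε (i + 1)) h / rr m ε (i + 1) +
        (ff k m ε (i + 1)).P (rr m ε (i + 1)) h := by
  rw [rr_of_le (by omega)]
  show (Zf k m i).c (ε * bb m (i + 1) / ε) (h / ε) / (ε * bb m (i + 1)) +
      (Zf k m i).P (ε * bb m (i + 1) / ε) (h / ε) / ε ≤
    (Zf k m (i + 1)).c (ε * bb m (i + 1) / ε) (h / ε) / (ε * bb m (i + 1)) +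
      (Zf k m (i + 1)).P (ε * bb m (i + 1) / ε) (h / ε) / ε
  rw [mul_div_cancel_left₀ _ hε.ne']
  have h1 := jump_P hkm hm (i := i) (by omega) (h / ε)
  have e : ∀ x y b : ℝ, x / (ε * b) + y / ε = (x / b + y) / ε := by
    intro x y b
    rw [add_div, div_div, mul_comm ε b]
  rw [e, e]
  exact div_le_div_of_nonneg_right h1 hε.le

/-- The hypothesis on the constant `K₁`. -/
def Bdd (k : ℕ) (m K₁ : ℝ) : Prop :=
  ∀ i, i < 4 → ∀ ρ ∈ Icc (bb m i) (bb m (i + 1)), ∀ h : ℝ,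
      |(Zf k m i).w ρ h| ≤ K₁ * |h| ∧ |(Zf k m i).w ρ h| * |h| ≤ K₁ ∧
      |(Zf k m i).P ρ h| ≤ K₁ ∧ |(Zf k m i).c ρ h| ≤ K₁

theorem one_sub_cos_le {s : ℝ} (h0 : 0 ≤ s) (h1 : s ≤ π / 2) : 1 - cos s ≤ sin s ^ 2 := by
  have h2 : 0 ≤ cos s := cos_nonneg_of_mem_Icc ⟨by linarith [pi_pos], h1⟩
  have h3 := cos_le_one s
  have h4 := sin_sq_add_cos_sq s
  nlinarith

theorem wall (hm : 20 ≤ m) (hε : 0 < ε) (hε1 : ε * (201 / 100 * rb m) ≤ 1 / 2) {K₁ : ℝ} (hK : 0 < K₁)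
    (hb : Bdd k m K₁) {i : ℕ} (hi : i < 4) {s : ℝ} (hs : s ∈ arc (rr m ε i) (rr m ε (i + 1))) :
    |(ff k m ε i).P (sin s) (1 - cos s) * sin s| ≤ 4 * K₁ ∧
    |(ff k m ε i).w (sin s) (1 - cos s)| ≤ 16 * K₁ ∧
    |(ff k m ε i).c (sin s) (1 - cos s)| ≤ K₁ ∧ sin s ≤ ε * (201 / 100 * rb m) ∧ 1 / 2 ≤ |cos s| := by
  obtain ⟨hrb1, hrb2⟩ := rb_bounds hm
  rw [rr_of_le hi.le, rr_of_le (by omega)] at hs
  obtain ⟨hs0, hs1, hs2, hs3⟩ := hs
  have hsin : 0 < sin s := sin_pos_of_pos_of_lt_pi hs0 hs1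
  have hρ : sin s / ε ∈ Icc (bb m i) (bb m (i + 1)) := by
    constructor
    · rw [le_div_iff₀ hε]; linarith
    · rw [div_le_iff₀ hε]; linarith
  have hsle : sin s ≤ ε * (201 / 100 * rb m) :=
    hs3.le.trans (mul_le_mul_of_nonneg_left (bb_le hm _) hε.le)
  have hsε : sin s / ε ≤ 4 := by
    rw [div_le_iff₀ hε]
    nlinarith
  have hsε0 : 0 ≤ sin s / ε := by positivity
  obtain ⟨b1, b2, b3, b4⟩ := hb i hi (sin s / ε) hρ ((1 - cos s) / ε)
  have hcos1 : 0 ≤ 1 - cos s := by linarith [cos_le_one s]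
  refine ⟨?_, ?_, b4, hsle, ?_⟩
  · show |(Zf k m i).P (sin s / ε) ((1 - cos s) / ε) / ε * sin s| ≤ 4 * K₁
    have e1 : (Zf k m i).P (sin s / ε) ((1 - cos s) / ε) / ε * sin s =
        (Zf k m i).P (sin s / ε) ((1 - cos s) / ε) * (sin s / ε) := by ring
    rw [e1, abs_mul, abs_of_nonneg hsε0]
    have := mul_le_mul b3 hsε hsε0 hK.le
    linarith
  · show |(Zf k m i).w (sin s / ε) ((1 - cos s) / ε) / ε| ≤ 16 * K₁
    rw [abs_div, abs_of_pos hε, div_le_iff₀ hε]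
    rcases le_or_gt s (π / 2) with h | h
    · refine b1.trans ?_
      rw [abs_of_nonneg (by positivity)]
      have h1 := one_sub_cos_le hs0.le h
      have h2 : (1 - cos s) / ε ≤ 16 * ε := by
        rw [div_le_iff₀ hε]
        have h3 : sin s ≤ 4 * ε := by rwa [div_le_iff₀ hε] at hsε
        have h4 : sin s ^ 2 ≤ (4 * ε) ^ 2 := pow_le_pow_left₀ hsin.le h3 2
        nlinarith
      have := mul_le_mul_of_nonneg_left h2 hK.le
      linarith
    · have h1 : cos s ≤ 0 := cos_nonpos_of_pi_div_two_le_of_le h.le (by linarith [pi_pos])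
      have h2 : 1 ≤ 1 - cos s := by linarith
      rw [abs_of_nonneg (a := (1 - cos s) / ε) (by positivity)] at b2
      have h3 : |(Zf k m i).w (sin s / ε) ((1 - cos s) / ε)| * (1 - cos s) ≤ K₁ * ε := by
        rw [← mul_div_assoc, div_le_iff₀ hε] at b2
        exact b2
      have h4 := abs_nonneg ((Zf k m i).w (sin s / ε) ((1 - cos s) / ε))
      have h5 : 0 < K₁ * ε := by positivity
      nlinarith
  · have h1 : sin s ≤ 1 / 2 := hsle.trans hε1
    have h2 : sin s ^ 2 ≤ 1 / 4 := by nlinarith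
    have h3 := sin_sq_add_cos_sq s
    have h4 : (1 / 2) ^ 2 ≤ cos s ^ 2 := by linarith
    have := sq_le_sq.1 h4
    rwa [abs_of_pos (by norm_num : (0 : ℝ) < 1 / 2)] at this

/-- The constant of the sheet in the sphere. -/
noncomputable def KK (K₁ : ℝ) : ℝ := 36 * K₁

/-- The radius of the last cylinder. -/
noncomputable def RR (m ε : ℝ) : ℝ := ε * (201 / 100 * rb m)

theorem KK_le {R ρ K₁ : ℝ} (hR : 0 < R) (hρ0 : 0 ≤ ρ) (hρ : ρ ≤ R) (hK : 0 < K₁) :
    KK K₁ ≤ 4 * KK K₁ * R ^ 2 / (ρ + R) ^ 2 := by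
  unfold KK
  rw [le_div_iff₀ (by positivity)]
  have h1 : (ρ + R) ^ 2 ≤ (2 * R) ^ 2 := pow_le_pow_left₀ (by linarith) (by linarith) 2
  nlinarith

theorem shear_le {w c s' : ℝ} {K₁ : ℝ} (hw : |w| ≤ 16 * K₁) (hc : 1 / 2 ≤ |c|) (hc1 : |c| ≤ 1)
    (hs : |s'| ≤ 1) : |w * s' / c| ≤ 32 * K₁ := by
  rw [abs_div, abs_mul, div_le_iff₀ (by linarith)]
  have h1 := abs_nonneg w
  have h2 := abs_nonneg s'
  nlinarith

theorem scaled (hk : 3 ≤ k) (hkm : (k : ℝ) = m ^ 4) (hm : 20 ≤ m) (hε : 0 < ε)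
    (hε1 : ε * (201 / 100 * rb m) ≤ 1 / 2) {K₁ : ℝ} (hK : 0 < K₁) (hb : Bdd k m K₁) :
    Rep k (fun A B => ∑ i ∈ Finset.range 5, ∫ s in arc (rr m ε i) (rr m ε (i + 1)),
      dens k (KK K₁) (RR m ε) (ff k m ε i) s *
        (sin s * A (sin s, cos s) + cos s * B (sin s, cos s))) := by
  obtain ⟨hrb1, hrb2⟩ := rb_bounds hm
  have hR : 0 < RR m ε := by unfold RR; positivity
  refine assembly hk 5 (rr m ε) (ff k m ε) rr_zero rr_five (fun i hi => rr_mono hm hε hε1 hi)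
    (fun i hi => fld_ff hkm hm hε hi) (fun i hi ρ hρ h => adm_ff hkm hm hε hi hρ h)
    (fun i hi h => jump_w_ff hkm hm hε hi h) (fun i hi h => jump_P_ff hkm hm hε hi h)
    (by unfold KK; positivity) hR ?_
  intro i hi s hs
  have hsin : 0 < sin s := sin_pos_of_pos_of_lt_pi hs.1 hs.2.1
  rcases Nat.lt_or_ge i 4 with h | h
  · obtain ⟨w1, w2, w3, w4, w5⟩ := wall hm hε hε1 hK hb h hs
    refine le_trans ?_ (KK_le hR hsin.le w4 hK)
    have h1 : |cos s ^ 2 - sin s ^ 2| ≤ 1 := by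
      rw [← cos_two_mul']
      exact abs_cos_le_one _
    have h2 := shear_le w2 w5 (abs_cos_le_one s) h1
    refine (abs_sub _ _).trans ?_
    unfold KK
    linarith
  · have : i = 4 := by omega
    subst this
    show |(0 : ℝ) / ε * sin s - 0 / ε * (cos s ^ 2 - sin s ^ 2) / cos s| ≤ _
    simp only [zero_div, zero_mul, sub_zero, abs_zero]
    unfold KK
    positivity

theorem le_dens (hk : 3 ≤ k) (hm : 20 ≤ m) (hε : 0 < ε)
    (hε1 : ε * (201 / 100 * rb m) ≤ 1 / 2) {K₁ : ℝ} (hK : 0 < K₁) (hb : Bdd k m K₁) {i : ℕ} (hi : i < 5)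
    {s : ℝ} (hs : s ∈ arc (rr m ε i) (rr m ε (i + 1))) :
    (ff k m ε i).c (sin s) (1 - cos s) * sin s ^ (k - 2) ≤
      dens k (KK K₁) (RR m ε) (ff k m ε i) s := by
  obtain ⟨hrb1, hrb2⟩ := rb_bounds hm
  have hR : 0 < RR m ε := by unfold RR; positivity
  have hsin : 0 < sin s := sin_pos_of_pos_of_lt_pi hs.1 hs.2.1
  have hKK : 0 < KK K₁ := by unfold KK; positivity
  unfold dens
  have h1 : 0 ≤ k * (4 * KK K₁ * RR m ε * sin s / (sin s + RR m ε)) * sin s ^ (k - 1) := by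
    positivity
  have h2 : (ff k m ε i).w (sin s) (1 - cos s) * sin s ^ k / cos s ≤
      4 * KK K₁ * RR m ε ^ 2 / (sin s + RR m ε) ^ 2 * sin s ^ k := by
    rcases Nat.lt_or_ge i 4 with h | h
    · obtain ⟨w1, w2, w3, w4, w5⟩ := wall hm hε hε1 hK hb h hs
      have h3 := shear_le (s' := 1) w2 w5 (abs_cos_le_one s) (by simp)
      rw [mul_one] at h3
      have h4 : (ff k m ε i).w (sin s) (1 - cos s) * sin s ^ k / cos s =
          (ff k m ε i).w (sin s) (1 - cos s) / cos s * sin s ^ k := by ring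
      rw [h4]
      refine mul_le_mul_of_nonneg_right ?_ (by positivity)
      refine (le_abs_self _).trans (h3.trans (le_trans ?_ (KK_le hR hsin.le w4 hK)))
      unfold KK; linarith
    · have : i = 4 := by omega
      subst this
      show (0 : ℝ) / ε * sin s ^ k / cos s ≤ _
      simp only [zero_div, zero_mul]
      positivity
  linarith

theorem c_nonneg (hkm : (k : ℝ) = m ^ 4) (hm : 20 ≤ m) (hε : 0 < ε) {i : ℕ} (hi : i < 5) {ρ : ℝ}
    (hρ : ρ ∈ Ioo (rr m ε i) (rr m ε (i + 1))) (hρ0 : 0 ≤ ρ) (h : ℝ) :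
    0 ≤ (ff k m ε i).c ρ h := by
  have h1 := adm_ff hkm hm hε hi hρ h
  have h2 : 0 ≤ ρ * ((ff k m ε i).w ρ h ^ 2 / (ff k m ε i).P ρ h) :=
    mul_nonneg hρ0 (div_nonneg (sq_nonneg _) h1.nonneg)
  have := h1.mass
  linarith

theorem dens_le (hk : 3 ≤ k) (hm : 20 ≤ m) (hε : 0 < ε)
    (hε1 : ε * (201 / 100 * rb m) ≤ 1 / 2) {K₁ : ℝ} (hK : 0 < K₁) (hb : Bdd k m K₁) {i : ℕ} (hi : i < 5)
    {s : ℝ} (hs : s ∈ arc (rr m ε i) (rr m ε (i + 1))) :
    dens k (KK K₁) (RR m ε) (ff k m ε i) s ≤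
      27 * m ^ 3 * sin s ^ (k - 2) + (177 + 144 * k) * K₁ * RR m ε := by
  obtain ⟨hrb1, hrb2⟩ := rb_bounds hm
  have hR : 0 < RR m ε := by unfold RR; positivity
  have hsin : 0 < sin s := sin_pos_of_pos_of_lt_pi hs.1 hs.2.1
  have hsin1 : sin s ≤ 1 := sin_le_one s
  have hKK : KK K₁ = 36 * K₁ := rfl
  have hm0 : 0 < m := by linarith
  unfold dens
  -- the last term
  have t4 : k * (4 * KK K₁ * RR m ε * sin s / (sin s + RR m ε)) * sin s ^ (k - 1) ≤
      144 * k * K₁ * RR m ε := by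
    have h1 : 4 * KK K₁ * RR m ε * sin s / (sin s + RR m ε) ≤ 4 * KK K₁ * RR m ε := by
      rw [div_le_iff₀ (by positivity), hKK]
      have : 0 < 36 * K₁ * RR m ε * RR m ε := by positivity
      nlinarith
    have h2 : sin s ^ (k - 1) ≤ 1 := pow_le_one₀ hsin.le hsin1
    have h3 : 0 ≤ 4 * KK K₁ * RR m ε * sin s / (sin s + RR m ε) := by
      rw [hKK]; positivity
    calc k * (4 * KK K₁ * RR m ε * sin s / (sin s + RR m ε)) * sin s ^ (k - 1)
        ≤ k * (4 * KK K₁ * RR m ε * sin s / (sin s + RR m ε)) * 1 :=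
          mul_le_mul_of_nonneg_left h2 (by positivity)
      _ ≤ k * (4 * KK K₁ * RR m ε) := by
          rw [mul_one]; exact mul_le_mul_of_nonneg_left h1 (by positivity)
      _ = 144 * k * K₁ * RR m ε := by rw [hKK]; ring
  -- the third term
  have t3 : 4 * KK K₁ * RR m ε ^ 2 / (sin s + RR m ε) ^ 2 * sin s ^ k ≤ 144 * K₁ * RR m ε := by
    have h1 : sin s ^ k ≤ sin s := by
      calc sin s ^ k ≤ sin s ^ 1 := pow_le_pow_of_le_one hsin.le hsin1 (by omega)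
        _ = sin s := pow_one _
    have h2 : 4 * KK K₁ * RR m ε ^ 2 / (sin s + RR m ε) ^ 2 * sin s ≤ 144 * K₁ * RR m ε := by
      rw [div_mul_eq_mul_div, div_le_iff₀ (by positivity), hKK]
      have h3 : RR m ε * sin s ≤ (sin s + RR m ε) ^ 2 := by nlinarith
      have h4 : 0 < 144 * K₁ * RR m ε := by positivity
      calc 4 * (36 * K₁) * RR m ε ^ 2 * sin s = 144 * K₁ * RR m ε * (RR m ε * sin s) := by ring
        _ ≤ 144 * K₁ * RR m ε * (sin s + RR m ε) ^ 2 := mul_le_mul_of_nonneg_left h3 h4.le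
    refine le_trans (mul_le_mul_of_nonneg_left h1 ?_) h2
    rw [hKK]; positivity
  rcases Nat.lt_or_ge i 4 with h | h
  · obtain ⟨w1, w2, w3, w4, w5⟩ := wall hm hε hε1 hK hb h hs
    have hsR : sin s ≤ RR m ε := w4
    have t1 : (ff k m ε i).c (sin s) (1 - cos s) * sin s ^ (k - 2) ≤ K₁ * RR m ε := by
      have h1 : sin s ^ (k - 2) ≤ RR m ε := by
        calc sin s ^ (k - 2) ≤ sin s ^ 1 := pow_le_pow_of_le_one hsin.le hsin1 (by omega)
          _ ≤ RR m ε := by rw [pow_one]; exact hsR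
      exact mul_le_mul ((le_abs_self _).trans w3) h1 (by positivity) hK.le
    have t2 : -((ff k m ε i).w (sin s) (1 - cos s) * sin s ^ k / cos s) ≤ 32 * K₁ * RR m ε := by
      have h3 := shear_le (s' := 1) w2 w5 (abs_cos_le_one s) (by simp)
      rw [mul_one] at h3
      have h4 : -((ff k m ε i).w (sin s) (1 - cos s) * sin s ^ k / cos s) =
          -((ff k m ε i).w (sin s) (1 - cos s) / cos s) * sin s ^ k := by ring
      rw [h4]
      have h5 : sin s ^ k ≤ RR m ε := by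
        calc sin s ^ k ≤ sin s ^ 1 := pow_le_pow_of_le_one hsin.le hsin1 (by omega)
          _ ≤ RR m ε := by rw [pow_one]; exact hsR
      exact mul_le_mul ((neg_le_abs _).trans h3) h5 (by positivity) (by positivity)
    have t0 : 0 ≤ 27 * m ^ 3 * sin s ^ (k - 2) := by positivity
    have e : (177 + 144 * k) * K₁ * RR m ε = K₁ * RR m ε + 32 * K₁ * RR m ε +
        144 * K₁ * RR m ε + 144 * k * K₁ * RR m ε := by ring
    rw [e]
    linarith
  · have : i = 4 := by omega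
    subst this
    have e1 : (ff k m ε 4).c (sin s) (1 - cos s) = 27 * m ^ 3 := rfl
    have e2 : (ff k m ε 4).w (sin s) (1 - cos s) = 0 := by
      show (0 : ℝ) / ε = 0
      simp
    rw [e1, e2, zero_mul, zero_div, sub_zero]
    have e : (177 + 144 * k) * K₁ * RR m ε = 33 * K₁ * RR m ε +
        144 * K₁ * RR m ε + 144 * k * K₁ * RR m ε := by ring
    have h33 : 0 < 33 * K₁ * RR m ε := by positivity
    rw [e]
    linarith

end

end Pool.Agent.Helper19.LB2
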